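import Pool.Agent.V5helper51.EG.Fin
import Pool.Agent.V5helper51.PL.All
import Pool.Agent.N748.HM.ZM1
import Pool.Agent.V5helper8.EG.TB
import Pool.Agent.V5helper15.EG.BADC
import Pool.Agent.V5helper15.EG.NEARC
import Pool.Agent.V5helper7.EG.CJM
import Pool.Agent.V5helper7.EG.FARC
import Pool.Agent.V5helper76.EG.LDS
import Pool.Agent.V5helper1.EG.MIN
import Pool.Agent.V5helper16.EG.SUPC
import Pool.Agent.V5helper69.EG.TLT
import Pool.Agent.V5helper81.EG.TRM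

set_option autoImplicit false

/-!
# Project EG: all parts put together
-/

namespace Pool.Agent.V5helper51.EG

open Filter MeasureTheory Topology
open Pool.Agent.N748.MG (mz pw Ev aC)
open Pool.Agent.N748.MJ
open Pool.Agent.V5helper51.HM (Ad Neg frac ak z)
open Pool.Agent.V5helper51.PL

theorem b_pos : ∀ V : ℝ, 0 < (aC (V : ℂ)).re := fun V => by
  rw [Pool.Agent.N748.MG.aC_re]
  exact (Pool.Agent.N748.MG.aC_akR V).1

theorem b_CJM : S_CJM := Pool.Agent.V5helper7.EG.CJM.t_CJM jmF posF LZB.main a_ZB1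

theorem b_TLT : S_TLT := Pool.Agent.V5helper69.EG.TLT.t_TLT b_CJM a_MAJ

theorem b_TB : S_TB := Pool.Agent.V5helper8.EG.t_TB b_pos b_TLT a_ZB1

theorem b_BADC : S_BADC := Pool.Agent.V5helper15.EG.t_BADC (fun V _ => b_pos V) b_TLT a_ZB1

theorem b_NEARC : S_NEARC := Pool.Agent.V5helper15.EG.t_NEARC (fun V _ => b_pos V) b_TLT a_ZB1

theorem b_MIN : S_MIN := Pool.Agent.V5helper1.EG.t_MIN

theorem b_LDS : S_LDS := Pool.Agent.V5helper76.EG.t_LDS Pool.Agent.N748.MG.cmF b_MIN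

theorem b_FARC : S_FARC := Pool.Agent.V5helper7.EG.t_FARC jmF posF LZB.main a_MAJ a_UCV a_ZB2

theorem b_SUPC : S_SUPC :=
  Pool.Agent.V5helper16.EG.SUPC.t_SUPC' b_TB Pool.Agent.N748.HM.ZM1.main Pool.Agent.N748.MG.CON.main

theorem b_TRM : S_TRM := Pool.Agent.V5helper81.EG.t_TRM b_TB

/-- the predicted size of the maximum -/
noncomputable def MM (θ d : ℝ) : ℝ :=
  (2 * d) ^ (-Real.sqrt (1 + θ)) * Real.log (1 / (2 * d)) ^ (-(1 / (4 * Real.sqrt (1 + θ))))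

/-- the predicted order of the average -/
noncomputable def PP (k θ d : ℝ) : ℝ :=
  (2 * d) ^ (-(2 * k * Real.sqrt (1 + θ) - (1 + θ))) * Real.log (1 / (2 * d)) ^ (-(k / (2 * Real.sqrt (1 + θ))))

/-- the predicted frequency of the values beyond `MM y` -/
noncomputable def QQ (θ d y : ℝ) : ℝ :=
  ak (Real.sqrt (1 + θ)) / (2 * Real.sqrt (1 + θ) * Real.sqrt Real.pi) * (2 * d) ^ (1 + θ) *
    y ^ (-(2 * Real.sqrt (1 + θ)))

theorem rE (d H : ℝ → ℝ) (hd0 : ∀ᶠ T : ℝ in atTop, 0 < d T) (hd : Tendsto d atTop (𝓝 0))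
    (hdL : Tendsto (fun T : ℝ => d T * Real.log T / Real.log (1 / d T) ^ 2) atTop atTop) (θ A0 : ℝ) (hθ : 0 < θ)
    (hA : 0 < A0) (hH : ∀ᶠ T : ℝ in atTop, d T ^ (-θ) / A0 ≤ H T ∧ H T ≤ A0 * d T ^ (-θ)) :
    (∀ G : ℝ → ℝ, Tendsto G atTop atTop → Tendsto (fun T : ℝ => frac T {t : ℝ |
      ¬ ((∃ u : ℝ, t ≤ u ∧ u ≤ t + H T ∧ MM θ (d T) / G T < z (d T) u) ∧
        ∀ u : ℝ, t ≤ u → u ≤ t + H T → z (d T) u < MM θ (d T) * G T)}) atTop (𝓝 0)) ∧
    (∀ k : ℝ, Real.sqrt (1 + θ) < k → ∀ G : ℝ → ℝ, Tendsto G atTop atTop → Tendsto (fun T : ℝ => frac T {t : ℝ |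
      ¬ (PP k θ (d T) / G T ≤ (1 / H T) * (∫ u in t..(t + H T), z (d T) u ^ (2 * k)) ∧
        (1 / H T) * (∫ u in t..(t + H T), z (d T) u ^ (2 * k)) ≤ PP k θ (d T) * G T)}) atTop (𝓝 0)) ∧
    (∀ (y : ℝ → ℝ) (B η : ℝ), 0 < η → Tendsto y atTop (𝓝 0) →
      (∀ᶠ T : ℝ in atTop, Real.log (1 / (2 * d T)) ^ (-B) ≤ y T) → Tendsto (fun T : ℝ => frac T {t : ℝ |
      η ≤ |(volume {u : ℝ | t ≤ u ∧ u ≤ t + H T ∧ MM θ (d T) * y T < z (d T) u}).toReal / H T /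
        QQ θ (d T) (y T) - 1|}) atTop (𝓝 0)) := by
  have hAd : Ad d := ⟨hd0, hd, hdL⟩
  set V : ℝ := Real.sqrt (1 + θ) with hVd
  have hV2 : V ^ 2 = 1 + θ := Real.sq_sqrt (by linarith)
  have hV : 1 < V := by
    rw [hVd, Real.lt_sqrt (by norm_num)]
    linarith
  have hV0 : 0 < V := by linarith
  have ha := b_pos V
  have hW : Wi (V ^ 2 - 1) A0 d H := by
    have e : V ^ 2 - 1 = θ := by linarith
    rw [e]
    exact hH
  have eM : ∀ x, MM θ x = ed V x := fun x => rfl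
  have eP : ∀ k x, PP k θ x = Pk V k x := by
    intro k x
    unfold PP Pk
    rw [← hVd, hV2]
  have hz : ∀ x u, z x u = mz x u := fun x u => rfl
  refine ⟨fun G hG => ?_, fun k hk G hG => ?_, fun y B η hη hy hyB => ?_⟩
  · exact (maxi b_TB b_BADC b_NEARC b_LDS b_FARC a_KAV a_VAR conF posF b_SUPC hV ha hAd hA hW hG).fr
  · simp_rw [eP]
    exact (frozen b_TB b_BADC b_NEARC b_LDS b_FARC a_KAV a_VAR conF posF b_SUPC b_TRM hV ha hAd hA hW hk hG).fr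
  · have hy0 : ∀ᶠ T : ℝ in atTop, 0 < y T := by
      filter_upwards [hyB, ell_large hAd 1] with T h1 h2
      exact lt_of_lt_of_le (Real.rpow_pos_of_pos (by linarith) _) h1
    have key := (freq b_TB b_BADC b_NEARC b_LDS b_FARC a_KAV a_VAR conF posF hV ha hAd hA hW hy0 hy hyB hη).fr
    have eQ : ∀ x y, QQ θ x y = kp V * (2 * x) ^ (V ^ 2) * y ^ (-(2 * V)) := by
      intro x y
      unfold QQ kp
      rw [← hVd, hV2, Pool.Agent.N748.MG.aC_re]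
      rfl
    simp_rw [eQ]
    exact key

end Pool.Agent.V5helper51.EG
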