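import Pool.Agent.V5helper51.PL.Stm

set_option autoImplicit false

/-!
# Project EG: the size of the maximum, and the frozen moments, in almost all windows, up to a factor tending to infinity slowly

`z = mz δ t = |ζ(1/2 + δ + it)|`, `ℓ = log (1/(2δ))`, `H = δ^(-θ)`, `θ > 0`, `V = √(1+θ)`. Goal: in almost all windows the maximum
of `z` is `(2δ)^(-V) ℓ^(-1/(4V))` up to a factor `g → ∞` (any `g`), and for `k > V` the average of `z^(2k)` is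
`(2δ)^(-(2kV - V²)) ℓ^(-k/(2V))` up to a factor `g`. All is uniform in the level `c`; `nu V δ c` is the expected proportion of the
points with `z > c` when `c = (2δ)^(-V) ℓ^(O(1))`.

New compared with project PL: the factor `1/√ℓ` of the local limit theorem is kept in ALL upper bounds (TLT: a majorant of
`exp(-2Vx)`, `x > 0`, with compactly supported Fourier transform (MAJ), together with a weight which is a product of real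
powers of `z` at other points), and the barrier is used at all scales `δ e^k` with allowance `ε k`.
`Ev P` allows any fixed power of `1/δ` against `X`. Theorems: `jmF`, `posF`, `conF`, `gvbF`, `bndF` and `LZB.main` of N748.MJ
(build of `Pool.Agent.N748.MJ.Fin`), `t_RJM`, `t_ZB2` (V5helper3), `t_ZB1` (V5helper68), `t_MAJ`, `t_VAR` (V5helper19),
`t_UCV`, `t_FAR2` (V5helper7), `t_KAV` (V5helper76). Use them as hypotheses of the form `S_...`.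
-/

namespace Pool.Agent.V5helper51.EG

open Finset Filter MeasureTheory Topology Complex
open Pool.Agent.N748.MG Pool.Agent.N748.MJ
open Pool.Agent.V5helper51.PL

/-- the expected proportion of the points with `|ζ| > c` -/
noncomputable def nu (V δ c : ℝ) : ℝ :=
  (aC V).re * c ^ (-(2 * V)) * (2 * δ) ^ (-V ^ 2) / (2 * V * Real.sqrt (Real.pi * Real.log (1 / (2 * δ))))

/-- (CJM) the joint moments with a complex first exponent, upper bound (points `t` and `t + h j`).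
Proof: (JM) with `m + 1` shifts `0, h`, exponents `b = (k0 + iξ/2, k_1, ..., k_m)`, `n = 0`, `ε = 1`, and `‖aV‖ ≤ C` (POSV), so that
`‖∫‖ ≤ (C+1) X |exp LM|`; `|exp LM| = exp(Re LM)`, `Re (b0²) = k0² - ξ²/4`, the cross terms are `2 k_j Re(b0 LZ) = 2 k_j k0 Re LZ`
in modulus (`LZ(-u)` is the conjugate of `LZ(u)`), and `ζ(1+2δ) ≥ c/δ` (ZB1). Integrability as in RJM. -/
def S_CJM : Prop := ∀ (m : ℕ) (R D : ℝ), 0 < R → 0 < D → ∃ C : ℝ, 0 < C ∧ Ev fun X δ =>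
  ∀ h : Fin m → ℝ, (∀ j, |h j| ≤ X ^ ((1:ℝ) / 2)) →
  ∃ N : Set ℝ, MeasurableSet N ∧ N ⊆ Set.Icc 0 X ∧ volume (Set.Icc 0 X \ N) ≤ ENNReal.ofReal (δ ^ D * X) ∧
    (∀ t ∈ N, 0 < mz δ t ∧ ∀ j, 0 < mz δ (t + h j)) ∧
    ∀ (k0 : ℝ) (k : Fin m → ℝ), |k0| ≤ R → (∀ j, |k j| ≤ R) →
      IntegrableOn (fun t => mz δ t ^ (2 * k0) * ∏ j, mz δ (t + h j) ^ (2 * k j)) N ∧
      ∀ ξ : ℝ, |ξ| ≤ R →
        ‖∫ t in N, ((mz δ t : ℝ) : ℂ) ^ ((ξ : ℂ) * I) * ((mz δ t ^ (2 * k0) * ∏ j, mz δ (t + h j) ^ (2 * k j) : ℝ) : ℂ)‖ ≤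
          C * X * Real.exp (-(ξ ^ 2 / 4) * Real.log (1 / δ)) *
            (z1 δ 0 ^ (k0 ^ 2) * (∏ j, z1 δ (h j) ^ (2 * (k0 * k j))) * ∏ j, ∏ l, z1 δ (h j - h l) ^ (k j * k l))

/-- (TLT) the tilted tail with the factor `1/√ℓ` (uses CJM, MAJ).
Proof: `V ≤ k0`: for `z > c`, `1 ≤ (z/c)^(2 k0) m(log (z/c))` with the majorant `m` of (MAJ) for `V` (`exp(-2 k0 x) ≤ exp(-2Vx) ≤ m x`),
`m(log(z/c)) = ∫_{-R'}^{R'} φ(ξ) (z/c)^(iξ) dξ`; Fubini; absolute values and (CJM) (with `R` the maximum of `R` and `R'`);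
`∫ exp(-ξ²/4 · log(1/δ)) dξ = √(4π/log(1/δ))`. -/
def S_TLT : Prop := ∀ (m : ℕ) (V R D : ℝ), 0 < V → 0 < R → 0 < D → ∃ C : ℝ, 0 < C ∧ Ev fun X δ =>
  ∀ h : Fin m → ℝ, (∀ j, |h j| ≤ X ^ ((1:ℝ) / 2)) →
  ∃ N : Set ℝ, MeasurableSet N ∧ N ⊆ Set.Icc 0 X ∧ volume (Set.Icc 0 X \ N) ≤ ENNReal.ofReal (δ ^ D * X) ∧
    (∀ t ∈ N, 0 < mz δ t ∧ ∀ j, 0 < mz δ (t + h j)) ∧
    ∀ (k0 c : ℝ) (k : Fin m → ℝ), V ≤ k0 → k0 ≤ R → 0 < c → (∀ j, |k j| ≤ R) →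
      IntegrableOn (fun t => ∏ j, mz δ (t + h j) ^ (2 * k j)) (N ∩ {t : ℝ | c < mz δ t}) ∧
      ∫ t in N ∩ {t : ℝ | c < mz δ t}, ∏ j, mz δ (t + h j) ^ (2 * k j) ≤
        C * X / Real.sqrt (Real.log (1 / δ)) * c ^ (-(2 * k0)) *
          (z1 δ 0 ^ (k0 ^ 2) * (∏ j, z1 δ (h j) ^ (2 * (k0 * k j))) * ∏ j, ∏ l, z1 δ (h j - h l) ^ (k j * k l))

/-- (TB) the tail of one value (uses TLT with `m = 0`, `k0 = V`, and ZB1; `(aC V).re > 0` by `aC_akR`). -/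
def S_TB : Prop := ∀ V D : ℝ, 0 < V → 0 < D → ∃ C : ℝ, 0 < C ∧ Ev fun X δ => ∀ c : ℝ, 0 < c →
  volume {t : ℝ | 0 ≤ t ∧ t ≤ X ∧ c < mz δ t} ≤ ENNReal.ofReal (X * (δ ^ D + C * nu V δ c))

/-- (BADC) the barrier at the scale `η = δ e^k` (uses TLT, ZB1).
Proof: `s = ε/2`, (TLT) with `k0 = V - s ≥ V/2`, shifts `2(i+1)η`, exponents `s/N`, and `1 ≤ (Gm/b)^(2s)`, `b = c K exp(-(V-ε)k)`. With
`z1(0) ≤ C/δ`, `z1(x) ≤ C/η` for the other differences: `C ℓ^(-1/2) c^(-2(V-s)) δ^(-(V-s)² - s²/N) η^(-2(V-s)s - s²(1-1/N))`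
`= C ℓ^(-1/2) c^(-2(V-s)) δ^(-V²) exp(-k(2Vs - s² - s²/N))`; times `b^(-2s) = c^(-2s) K^(-2s) exp(2s(V-ε)k)`: the exponent of `k` is
`s²(1+1/N) - 2sε ≤ -ε²/2`. -/
def S_BADC : Prop := ∀ V D ε : ℝ, 0 < V → 0 < D → 0 < ε → ε ≤ V → ∀ N : ℕ, 1 ≤ N → ∃ C : ℝ, 0 < C ∧ Ev fun X δ =>
  ∀ c K : ℝ, 0 < c → 0 < K → ∀ k : ℝ, 0 ≤ k → δ * Real.exp k ≤ 3 →
  volume {t : ℝ | 0 ≤ t ∧ t ≤ X ∧ c < mz δ t ∧ c * K * Real.exp (-(V - ε) * k) < Gm δ N (δ * Real.exp k) t} ≤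
    ENNReal.ofReal (X * (δ ^ D + C * K ^ (-ε) * nu V δ c * Real.exp (-(ε ^ 2 / 2) * k)))

/-- (NEARC) pairs of points with `z > c` at the distance `|h| ∈ [η/e, η]`, `η = δ e^k`, the first one good at the scale `η` (uses
TLT, ZB1).
Proof: (TLT) with `k0 = V`, shifts `h, 2(i+1)η`, exponents `V, -V/N`; `1 ≤ (z(t+h)/c)^(2V) (b/Gm)^(2V)`. `|h - 2(i+1)η|` is between `η` and
`(2N+1)η`. Product: `C ℓ^(-1/2) c^(-4V) b^(2V) δ^(-2V² - V²/N) η^(-2V² + 4V² - V²(1-1/N))`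
`= C ℓ^(-1/2) c^(-4V) b^(2V) δ^(-V²) exp(k(V² + V²/N))`, and `b^(2V) = c^(2V) K^(2V) exp(-2V(V-ε)k)`. (Keep the pairs `i ≠ l` of
`Gm` exact: `z1(2(i-l)η)` is between `c/η` and `C/η`, `N(N-1)` pairs with exponent `V²/N²`.) -/
def S_NEARC : Prop := ∀ V D ε : ℝ, 0 < V → 0 < D → 0 < ε → ∀ N : ℕ, 1 ≤ N → ∃ C : ℝ, 0 < C ∧ Ev fun X δ =>
  ∀ c K : ℝ, 0 < c → 0 < K → ∀ k : ℝ, 0 ≤ k → δ * Real.exp k ≤ 3 →
  ∀ h : ℝ, δ * Real.exp (k - 1) ≤ |h| → |h| ≤ δ * Real.exp k →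
  volume {t : ℝ | 0 ≤ t ∧ t ≤ X ∧ c < mz δ t ∧ c < mz δ (t + h) ∧
      Gm δ N (δ * Real.exp k) t ≤ c * K * Real.exp (-(V - ε) * k)} ≤
    ENNReal.ofReal (X * (δ ^ D + C * K ^ (2 * V) * nu V δ c * Real.exp (-(V ^ 2 - V ^ 2 / N - 2 * V * ε) * k)))

/-- (MIN) a band-limited minorant of `exp(-2Vx)` on `x > 0` (proof as for MAJ, from the continuous function
`g(x) = (1-κ) exp(-2Vx) cut off near 0, minus κ/(1+x²)`, convolved with the Fejer kernel) -/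
def S_MIN : Prop := ∀ V ε : ℝ, 0 < V → 0 < ε → ∃ (R : ℝ) (φ : ℝ → ℂ) (m : ℝ → ℝ), 0 < R ∧ Continuous φ ∧
  (∀ ξ, R < |ξ| → φ ξ = 0) ∧ (∀ x, x ≤ 0 → m x ≤ 0) ∧ (∀ x, 0 < x → m x ≤ Real.exp (-(2 * V * x))) ∧
  (∀ x : ℝ, ((m x : ℝ) : ℂ) = ∫ ξ in Set.Icc (-R) R, φ ξ * Complex.exp (((ξ * x : ℝ) : ℂ) * I)) ∧
  1 / (2 * V) - ε ≤ 2 * Real.pi * (φ 0).re

/-- (LDS) the lower bound for the proportion of the large values, uniform in the level (uses `jmF`, `conF`, `posF`, `LZB.main`,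
MIN, ZB1; `aC`: `aV` without shifts is `aC` by `S_AV0` = `av0F`).
Proof: `S = V log ζ(1+2δ) - log c = O(log ℓ)`. On the set `N` of (JM) with `m = 1`, `h = 0`, `b = V + iξ/2`:
`1_{z>c} ≥ (z/c)^(2V) m(log(z/c)) = ∫ φ(ξ) (z/c)^(2V+iξ) dξ`, so
`vol ≥ Re ∫ φ(ξ) c^(-2V-iξ) ζ(1+2δ)^((V+iξ/2)²) (aC(V+iξ/2) X + O(ε' X)) dξ`; `|...| = c^(-2V) ζ^(V² - ξ²/4)`, the phase is
`exp(iξS)`; for `|ξ| ≤ η` the function `φ(ξ) aC(V+iξ/2) exp(iξS)` is `φ(0) aC(V) + O(ω + |ξ||S|)`, and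
`∫ |ξ| |S| exp(-ξ²ℓ'/4) dξ = 4|S|/ℓ'` is small against `√(4π/ℓ')`. Finally `2π φ(0) · √(4π/ℓ)/(2π) = (1/(2V)) /√(π ℓ)`. -/
def S_LDS : Prop := ∀ V A ε : ℝ, 0 < V → 0 < A → 0 < ε → Ev fun X δ => ∀ c : ℝ, 0 < c →
  |Real.log c - V * Real.log (1 / (2 * δ))| ≤ A * Real.log (Real.log (1 / (2 * δ))) →
  ENNReal.ofReal (X * ((1 - ε) * nu V δ c)) ≤ volume {t : ℝ | 0 ≤ t ∧ t ≤ X ∧ c < mz δ t}

/-- (FARC) the pairs of points with `z > c` at distances at least `1`, uniform in the level. Proof as for FAR2 (`V5helper7/PL`), the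
level enters only by the factor `c^(-4V)` when absolute values are taken (in the first case of FAR2, `z1^(2V²) ≤ ε'/ℓ²`, nothing
changes; the condition on `c` gives `nu ≥ δ^(O(1))`). -/
def S_FARC : Prop := ∀ V A D ε : ℝ, 0 < V → 0 < A → 0 < D → 0 < ε → Ev fun X δ => ∀ c : ℝ, 0 < c →
  |Real.log c - V * Real.log (1 / (2 * δ))| ≤ A * Real.log (Real.log (1 / (2 * δ))) →
  ∀ h : ℝ, 1 ≤ |h| → |h| ≤ δ ^ (-D) →
  volume {t : ℝ | 0 ≤ t ∧ t ≤ X ∧ c < mz δ t ∧ c < mz δ (t + h)} ≤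
    ENNReal.ofReal (X * ((ka V δ h + ε) * (1 + ε) * nu V δ c ^ 2))

/-- (SUPC) the supremum over short cells (uses TB).
Proof: `r = δ/2`; if `|ζ(w0)| ≥ c`, `w0 = 1/2 + δ + iu`, then by the mean value property over the disc of radius `r` (or, twice, the
sub-mean value property on segments/circles) `∫∫_disc |ζ| 1_{|ζ| > c/2} ≥ π r² c/2`. The disc lies in
`1/2 + σ + iv`, `σ ∈ [δ/2, 3δ/2]`, `v ∈ [t - δ, t + 2δ]`. Integrate over `t` (drop `t < 1`: `1 ≤ δ^D X`): the measure is at most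
`(C/c) sup_σ ∫_0^{2X} mz σ v 1_{mz σ v > c/2} dv`, and by (TB) at the distance `σ` (admissible, `nu V σ ≤ C nu V δ`) with the exponent
`D' ` large, layer by layer `2^j c/2 < z ≤ 2^(j+1) c/2`: `Σ 2^j c (δ^D' + C nu V δ (2^j c/2)) ≤ C c nu` since `2V > 1`, as long as
`2^j ≤ δ^(-A)`; the rest by the mean square `∫ z² ≤ C X/δ` (any bound `C X δ^(-B)` will do, e.g. from `Inp.zm2`). -/
def S_SUPC : Prop := ∀ V D : ℝ, 1 ≤ V → 0 < D → ∃ C : ℝ, 0 < C ∧ Ev fun X δ => ∀ c : ℝ, 1 ≤ c →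
  volume {t : ℝ | 0 ≤ t ∧ t ≤ X ∧ ∃ u : ℝ, t ≤ u ∧ u ≤ t + δ ∧ c ≤ mz δ u} ≤
    ENNReal.ofReal (X * (δ ^ D + C * nu V δ c))

/-- (TRM) the truncated moments (uses TB). Proof: `z ≤ c`; on `c 2^(-j-1) < z ≤ c 2^(-j)` the measure is at most
`X (δ^D + C 2^(2V(j+1)) nu V δ c)`, and `Σ 2^(-2kj) 2^(2V(j+1))` converges. -/
def S_TRM : Prop := ∀ V k D : ℝ, 0 < V → V < k → 0 < D → ∃ C : ℝ, 0 < C ∧ Ev fun X δ => ∀ c : ℝ, 0 < c →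
  ∫ t in {t : ℝ | 0 ≤ t ∧ t ≤ X ∧ mz δ t ≤ c}, mz δ t ^ (2 * k) ≤ X * (c ^ (2 * k) * (C * δ ^ D + C * nu V δ c))

end Pool.Agent.V5helper51.EG
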