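import Pool.Agent.V5helper51.PL.Plw
import Pool.Agent.V5helper51.EG.Stm

set_option autoImplicit false

/-!
# Project EG: assembly, general lemmas
-/

namespace Pool.Agent.V5helper51.EG

open Filter MeasureTheory Topology
open Pool.Agent.N748.MG (mz pw Ev aC)
open Pool.Agent.V5helper51.HM (Ad Neg frac)
open Pool.Agent.V5helper51.PL

/-- second moment, general near part -/
lemma sec_mom' (hVAR : S_VAR) {F : ℝ → ℝ} (hF : Measurable F) (h0 : ∀ s, 0 ≤ F s) (h1 : ∀ s, F s ≤ 1)
    {T H B m ε y0 : ℝ} {κ g1 : ℝ → ℝ} (hκc : Continuous κ) (hT : 0 < T) (hH : 1 ≤ H)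
    (hm : 0 ≤ m) (hε : 0 ≤ ε) (c1 : Continuous g1) (hg0 : ∀ x, 0 ≤ x → x ≤ 1 → 0 ≤ g1 x)
    (hB : ∫ x in (0:ℝ)..1, g1 x ≤ B)
    (hnear : ∀ u x : ℝ, 0 ≤ u → 0 ≤ x → x ≤ 1 → u + x ≤ H →
      ∫ t in (0:ℝ)..T, F (t + u) * F (t + u + x) ≤ g1 x)
    (hfar : ∀ u x : ℝ, 0 ≤ u → 1 < x → u + x ≤ H →
      ∫ t in (0:ℝ)..T, F (t + u) * F (t + u + x) ≤ T * (m * (κ x + ε)) + H)
    (hκ : ∀ y : ℝ, 1 ≤ y → y ≤ H → ∫ x in (1:ℝ)..y, κ x ≤ (1 + ε) * (y + y0)) (hy0 : 0 ≤ y0) :
    ∫ t in (0:ℝ)..T, (Av F H t) ^ 2 ≤ (2 / H) * B + T * (m * ((1 + ε) * (1 + 2 * y0 / H) + ε)) + H := by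
  have hH0 : 0 < H := by linarith
  set g2 : ℝ → ℝ := fun x => T * (m * (κ x + ε)) + H with hg2
  have c2 : Continuous g2 := by
    exact (continuous_const.mul (continuous_const.mul (hκc.add continuous_const))).add continuous_const
  set G : ℝ → ℝ := fun x => if x ≤ 1 then g1 x else g2 x with hG
  have i1 : IntervalIntegrable G volume 0 1 := by
    refine (c1.intervalIntegrable 0 1).congr ?_
    intro x hx
    rw [Set.uIoc_of_le zero_le_one] at hx
    simp only [hG, if_pos hx.2]
  have i2 : IntervalIntegrable G volume 1 H := by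
    refine (c2.intervalIntegrable 1 H).congr ?_
    intro x hx
    rw [Set.uIoc_of_le hH] at hx
    simp only [hG, if_neg (not_le.2 hx.1)]
  have hv := hVAR F G T H hF h0 h1 hH0 hT (i1.trans i2) (by
    intro u x hu hx hux
    by_cases hx1 : x ≤ 1
    · simp only [hG, if_pos hx1]
      exact hnear u x hu hx hx1 hux
    · simp only [hG, if_neg hx1]
      exact hfar u x hu (not_le.1 hx1) hux)
  have e1 : ∫ t in (0:ℝ)..T, (Av F H t) ^ 2 = (1 / H ^ 2) * ∫ t in (0:ℝ)..T, (∫ s in t..(t + H), F s) ^ 2 := by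
    rw [← intervalIntegral.integral_const_mul]
    refine intervalIntegral.integral_congr fun t _ => ?_
    simp only [Av]
    ring
  have j1 : IntervalIntegrable (fun x => (H - x) * G x) volume 0 1 :=
    i1.continuousOn_mul (continuous_const.sub continuous_id).continuousOn
  have j2 : IntervalIntegrable (fun x => (H - x) * G x) volume 1 H :=
    i2.continuousOn_mul (continuous_const.sub continuous_id).continuousOn
  have e2 : ∫ x in (0:ℝ)..H, (H - x) * G x = (∫ x in (0:ℝ)..1, (H - x) * g1 x) + ∫ x in (1:ℝ)..H, (H - x) * g2 x := by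
    rw [← intervalIntegral.integral_add_adjacent_intervals j1 j2]
    congr 1
    · refine intervalIntegral.integral_congr fun x hx => ?_
      rw [Set.uIcc_of_le zero_le_one] at hx
      simp only [hG, if_pos hx.2]
    · rw [intervalIntegral.integral_of_le hH, intervalIntegral.integral_of_le hH]
      refine setIntegral_congr_fun measurableSet_Ioc fun x hx => ?_
      simp only [hG, if_neg (not_le.2 hx.1)]
  have b1 : ∫ x in (0:ℝ)..1, (H - x) * g1 x ≤ H * B := by
    have h2 : ∫ x in (0:ℝ)..1, (H - x) * g1 x ≤ ∫ x in (0:ℝ)..1, H * g1 x := by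
      refine intervalIntegral.integral_mono_on zero_le_one
        (((continuous_const.sub continuous_id).mul c1).intervalIntegrable _ _)
        ((continuous_const.mul c1).intervalIntegrable _ _) fun x hx => ?_
      exact mul_le_mul_of_nonneg_right (by linarith [hx.1]) (hg0 x hx.1 hx.2)
    rw [intervalIntegral.integral_const_mul] at h2
    exact h2.trans (mul_le_mul_of_nonneg_left hB hH0.le)
  have b2 : ∫ x in (1:ℝ)..H, (H - x) * g2 x ≤
      T * (m * ((1 + ε) * (H ^ 2 / 2 + y0 * H) + ε * (H ^ 2 / 2))) + H * (H ^ 2 / 2) := by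
    have hi1 : IntervalIntegrable (fun x : ℝ => (H - x) * κ x) volume 1 H :=
      ((continuous_const.sub continuous_id).mul hκc).intervalIntegrable _ _
    have hi2 : IntervalIntegrable (fun x : ℝ => (H - x)) volume 1 H :=
      (continuous_const.sub continuous_id).intervalIntegrable _ _
    have e3 : ∫ x in (1:ℝ)..H, (H - x) * g2 x =
        T * m * (∫ x in (1:ℝ)..H, (H - x) * κ x) + (T * m * ε + H) * ∫ x in (1:ℝ)..H, (H - x) := by
      rw [← intervalIntegral.integral_const_mul, ← intervalIntegral.integral_const_mul,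
        ← intervalIntegral.integral_add (hi1.const_mul _) (hi2.const_mul _)]
      refine intervalIntegral.integral_congr fun x _ => ?_
      simp only [hg2]
      ring
    rw [e3, int_tri hκc]
    have h3 : ∫ y in (1:ℝ)..H, ∫ x in (1:ℝ)..y, κ x ≤ (1 + ε) * (H ^ 2 / 2 + y0 * H) := by
      have hc : Continuous fun y : ℝ => ∫ x in (1:ℝ)..y, κ x :=
        intervalIntegral.continuous_primitive (fun a b => hκc.intervalIntegrable a b) 1
      have h4 : ∫ y in (1:ℝ)..H, ∫ x in (1:ℝ)..y, κ x ≤ ∫ y in (1:ℝ)..H, (1 + ε) * (y + y0) :=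
        intervalIntegral.integral_mono_on hH (hc.intervalIntegrable _ _)
          ((by fun_prop : Continuous fun y : ℝ => (1 + ε) * (y + y0)).intervalIntegrable _ _)
          fun y hy => hκ y hy.1 hy.2
      refine h4.trans ?_
      rw [intervalIntegral.integral_const_mul, intervalIntegral.integral_add intervalIntegral.intervalIntegrable_id
        intervalIntegrable_const, integral_id, intervalIntegral.integral_const, smul_eq_mul]
      refine mul_le_mul_of_nonneg_left ?_ (by linarith)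
      nlinarith
    have h5 := int_lin hH
    have h6 : 0 ≤ T * m := by positivity
    have h7 : 0 ≤ T * m * ε + H := by positivity
    nlinarith [mul_le_mul_of_nonneg_left h3 h6, mul_le_mul_of_nonneg_left h5 h7]
  rw [e1]
  rw [e2] at hv
  have hH2 : 0 < 1 / H ^ 2 := by positivity
  calc (1 / H ^ 2) * ∫ t in (0:ℝ)..T, (∫ s in t..(t + H), F s) ^ 2
      ≤ (1 / H ^ 2) * (2 * (H * B +
        (T * (m * ((1 + ε) * (H ^ 2 / 2 + y0 * H) + ε * (H ^ 2 / 2))) + H * (H ^ 2 / 2)))) :=
        mul_le_mul_of_nonneg_left (hv.trans (mul_le_mul_of_nonneg_left (add_le_add b1 b2) (by norm_num))) hH2.le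
    _ = _ := by
        field_simp
        ring

lemma int_max {δ q : ℝ} (hδ : 0 < δ) (hδ1 : δ < 1) (hq : 1 < q) :
    ∫ x in (0:ℝ)..1, (max x δ) ^ (-q) ≤ δ ^ (1 - q) * (q / (q - 1)) := by
  have hc : Continuous fun x : ℝ => (max x δ) ^ (-q) :=
    (continuous_id.max continuous_const).rpow_const fun x => Or.inl (lt_max_of_lt_right hδ).ne'
  rw [← intervalIntegral.integral_add_adjacent_intervals (hc.intervalIntegrable 0 δ) (hc.intervalIntegrable δ 1)]
  have h1 : ∫ x in (0:ℝ)..δ, (max x δ) ^ (-q) = δ * δ ^ (-q) := by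
    have : ∫ x in (0:ℝ)..δ, (max x δ) ^ (-q) = ∫ x in (0:ℝ)..δ, δ ^ (-q) := by
      refine intervalIntegral.integral_congr fun x hx => ?_
      rw [Set.uIcc_of_le hδ.le] at hx
      show (max x δ) ^ (-q) = _
      rw [max_eq_right hx.2]
    rw [this, intervalIntegral.integral_const, smul_eq_mul, sub_zero]
  have h2 : ∫ x in δ..1, (max x δ) ^ (-q) = (1 - δ ^ (-q + 1)) / (-q + 1) := by
    have : ∫ x in δ..1, (max x δ) ^ (-q) = ∫ x in δ..1, x ^ (-q) := by
      refine intervalIntegral.integral_congr fun x hx => ?_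
      rw [Set.uIcc_of_le hδ1.le] at hx
      show (max x δ) ^ (-q) = _
      rw [max_eq_left hx.1]
    rw [this, integral_rpow (Or.inr ⟨by linarith, by
      rw [Set.uIcc_of_le hδ1.le]
      exact fun h => absurd h.1 (not_le.2 hδ)⟩), Real.one_rpow]
  rw [h1, h2]
  have h3 : δ * δ ^ (-q) = δ ^ (1 - q) := by
    conv_lhs => rw [← Real.rpow_one δ]
    rw [Real.rpow_one, ← Real.rpow_one_add' hδ.le (by linarith)]
    congr 1
  have h4 : δ ^ (-q + 1) = δ ^ (1 - q) := by congr 1; ring
  rw [h3, h4]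
  have h5 : (1 - δ ^ (1 - q)) / (-q + 1) = (δ ^ (1 - q) - 1) / (q - 1) := by
    rw [div_eq_div_iff (by linarith) (by linarith)]
    ring
  rw [h5]
  have h6 : 0 < q - 1 := by linarith
  have h7 : δ ^ (1 - q) + (δ ^ (1 - q) - 1) / (q - 1) = δ ^ (1 - q) * (q / (q - 1)) - 1 / (q - 1) := by
    field_simp
    ring
  rw [h7]
  have : 0 < 1 / (q - 1) := by positivity
  linarith

end Pool.Agent.V5helper51.EG
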