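import Pool.Agent.V5helper51.EG.Low

set_option autoImplicit false

/-!
# Project EG: the frequency of the large values up to the edge, from the parts
-/

namespace Pool.Agent.V5helper51.EG

open Filter MeasureTheory Topology
open Pool.Agent.N748.MG (mz pw Ev aC)
open Pool.Agent.N748.MJ (S_CONV S_POSV)
open Pool.Agent.V5helper51.HM (Ad Neg frac)
open Pool.Agent.V5helper51.PL

/-- the proportion of the window on which `|ζ| > c` -/
noncomputable def lamc (c δ H t : ℝ) : ℝ := (volume {u : ℝ | t ≤ u ∧ u ≤ t + H ∧ c < mz δ u}).toReal / H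

lemma lamc_eq {c δ H t : ℝ} (h0 : 0 < δ) (h1 : δ < 1 / 2) (hH : 0 < H) : lamc c δ H t = Av (ind (SL c δ)) H t := by
  unfold lamc Av
  rw [ind_int (SL_meas h0 h1) (by linarith)]
  have : {u : ℝ | t ≤ u ∧ u ≤ t + H ∧ c < mz δ u} = SL c δ ∩ Set.Icc t (t + H) := by
    ext u
    simp only [SL, Set.mem_ofPred_eq, Set.mem_inter_iff, Set.mem_Icc]
    tauto
  rw [this]
  ring

theorem edge (hTB : S_TB) (hB : S_BADC) (hN : S_NEARC) (hL : S_LDS) (hF : S_FARC) (hK : S_KAV) (hVAR : S_VAR)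
    (hC : S_CONV) (hP : S_POSV) {V A D : ℝ} (hV : 1 < V) (hA : 0 < A) (ha : 0 < (aC V).re) {d H c : ℝ → ℝ} (hd : Ad d)
    (hc : Lev V A d c) (hH : ∀ᶠ T : ℝ in atTop, H T ≤ d T ^ (-D))
    (hHn : Tendsto (fun T : ℝ => H T * nu V (d T) (c T) / d T) atTop atTop) {η : ℝ} (hη : 0 < η) :
    Neg fun T => {t : ℝ | η ≤ |lamc (c T) (d T) (H T) t / nu V (d T) (c T) - 1|} := by
  have hV0 : 0 < V := by linarith
  set s : ℝ := (V ^ 2 - 1) / 2 with hs
  have hs0 : 0 < s := by rw [hs]; nlinarith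
  obtain ⟨N, hNN⟩ := exists_nat_gt (2 * V ^ 2 / s)
  have hN0 : (0:ℝ) < N := lt_trans (by positivity) hNN
  have hN1 : 1 ≤ N := by exact_mod_cast hN0
  set εb : ℝ := s / (4 * V) with hεb
  have hεb0 : 0 < εb := by rw [hεb]; positivity
  have hεbV : εb ≤ V := by
    rw [hεb, div_le_iff₀ (by positivity), hs]
    nlinarith
  set γ : ℝ := V ^ 2 - V ^ 2 / N - 2 * V * εb with hγ
  have hγ1 : 1 < γ := by
    rw [div_lt_iff₀ hs0] at hNN
    have h1 : V ^ 2 / N < s / 2 := by
      rw [div_lt_iff₀ hN0]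
      linarith
    have h2 : 2 * V * εb = s / 2 := by rw [hεb]; field_simp; ring
    rw [hγ, h2]
    have : V ^ 2 = 2 * s + 1 := by rw [hs]; ring
    linarith
  have hγ0 : 0 < γ := by linarith
  obtain ⟨CB, hCB, hbad⟩ := badC hB hV0 ha (D := V ^ 2 + 1) (by positivity) hεb0 hεbV hN1
  intro κ hκ
  have hq : 0 < 12 / η ^ 2 + 2 / η := by positivity
  set ε : ℝ := min (1 / 2) (κ / ((12 / η ^ 2 + 2 / η) * 15)) with hε
  have hε0 : 0 < ε := lt_min (by norm_num) (by positivity)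
  have hε1 : ε ≤ 1 / 2 := min_le_left _ _
  have hε2 : (12 / η ^ 2 + 2 / η) * (15 * ε) ≤ κ := by
    have h3 : ε ≤ κ / ((12 / η ^ 2 + 2 / η) * 15) := min_le_right _ _
    rw [le_div_iff₀ (by positivity)] at h3
    linarith
  set K : ℝ := (4 * CB / ε) ^ (1 / εb) with hKd
  have hK0 : 0 < K := Real.rpow_pos_of_pos (by positivity) _
  have hKε : CB * K ^ (-εb) = ε / 4 := by
    rw [hKd, ← Real.rpow_mul (by positivity)]
    have : 1 / εb * -εb = -1 := by field_simp
    rw [this, Real.rpow_neg_one]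
    field_simp
  obtain ⟨CN, hCN, hnear⟩ := nearC hTB hN hV0 ha (D := 2 * V ^ 2 + 2) (by positivity) hεb0 hN1 hγ0 hK0
  obtain ⟨δ0, hδ0, hKA⟩ := hK V (s / 2) ε hV0 (by positivity) hε0
  have hD1 : 0 < max D 1 := lt_of_lt_of_le one_pos (le_max_right _ _)
  have hγ2 : 0 < γ - 1 := by linarith
  have hK1 : 0 < 8 * CN * γ / ((γ - 1) * ε) := by positivity
  filter_upwards [hbad d hd, hnear d hd, ev_ad (hL V A ε hV0 hA hε0) hd,
    ev_ad (hF V A (max D 1) ε hV0 hA hD1 hε0) hd, hd.ev 1 δ0 hδ0, hc, hH, hd.sm, eventually_gt_atTop 0,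
    nu_size hV0 ha hd hc s hs0, nu_size hV0 ha hd hc (1 / 2) (by norm_num), hd.pw (s / 2) ε (by positivity) hε0,
    hd.pw (1 / 2) (ε / 4) (by norm_num) (by positivity), hd.pw 1 (ε / 8) one_pos (by positivity),
    pwT hd (max D 1 + 2 * (V ^ 2 + 1)) ε (by positivity) hε0, pwT hd (max D 1) 1 hD1.le one_pos,
    hHn.eventually_ge_atTop 1, hHn.eventually_ge_atTop (8 * CN * γ / ((γ - 1) * ε))] with
    T g1 g2 g3 g4 ⟨h3, h4, _⟩ ⟨hc0, hcA⟩ hHD' ⟨_, h9⟩ hT ⟨_, n2⟩ ⟨n3, _⟩ p1 p2 p3 p4 p5 q1 q2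
  rw [Real.rpow_one] at p3
  have hd1 : d T < 1 / 2 := by linarith
  have hd1' : d T < 1 := by linarith
  have hnu : 0 < nu V (d T) (c T) := nu_pos hV0 ha h3 hd1 hc0
  set ν : ℝ := nu V (d T) (c T) with hν
  have hν2 : 0 < ν ^ 2 := by positivity
  -- the size of `H`
  have hHs' : d T ^ (-s) ≤ H T := by
    rw [le_div_iff₀ h3, one_mul] at q1
    have e1 : d T ^ (-s) * d T ^ (V ^ 2 - s) = d T := by
      rw [← Real.rpow_add h3]
      conv_rhs => rw [← Real.rpow_one (d T)]
      congr 1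
      rw [hs]
      ring
    have e2 : d T ^ (-s) * ν ≤ d T := by
      calc d T ^ (-s) * ν ≤ d T ^ (-s) * d T ^ (V ^ 2 - s) := mul_le_mul_of_nonneg_left n2 (by positivity)
        _ = d T := e1
    exact le_of_mul_le_mul_right (e2.trans q1) hnu
  have hHD : H T ≤ d T ^ (-(max D 1)) :=
    hHD'.trans (Real.rpow_le_rpow_of_exponent_ge h3 hd1'.le (by linarith [le_max_left D 1]))
  have hH1 : 1 ≤ H T := (Real.one_le_rpow_of_pos_of_le_one_of_nonpos h3 hd1'.le (by linarith)).trans hHs'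
  have hH0 : 0 < H T := by linarith
  have hHT : H T ≤ T := by linarith
  have hν1 : ν ≤ 1 := n2.trans (Real.rpow_le_one h3.le hd1'.le (by rw [hs]; nlinarith))
  have hHs : H T ≤ ε * ν ^ 2 * T := by
    have e1 : d T ^ (-(max D 1)) = d T ^ (-(max D 1 + 2 * (V ^ 2 + 1))) * (d T ^ (V ^ 2 + 1)) ^ 2 := by
      rw [← Real.rpow_mul_natCast h3.le, ← Real.rpow_add h3]
      congr 1
      push_cast
      ring
    have e2 : (d T ^ (V ^ 2 + 1)) ^ 2 ≤ ν ^ 2 :=
      pow_le_pow_left₀ (by positivity) ((Real.rpow_le_rpow_of_exponent_ge h3 hd1'.le (by linarith)).trans n3) 2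
    calc H T ≤ d T ^ (-(max D 1)) := hHD
      _ = d T ^ (-(max D 1 + 2 * (V ^ 2 + 1))) * (d T ^ (V ^ 2 + 1)) ^ 2 := e1
      _ ≤ (ε * T) * ν ^ 2 := mul_le_mul p4 e2 (by positivity) (by positivity)
      _ = _ := by ring
  set SS : Set ℝ := SC V εb N K (c T) (d T) with hSS
  have hSm : MeasurableSet SS := SC_meas h3 hd1
  set FL : ℝ → ℝ := ind (SL (c T) (d T)) with hFL
  set FG : ℝ → ℝ := ind SS with hFG
  have mL : Measurable FL := ind_meas (SL_meas h3 hd1)
  have mG : Measurable FG := ind_meas hSm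
  have l0 : ∀ s, 0 ≤ FL s := ind0 _
  have l1 : ∀ s, FL s ≤ 1 := ind1 _
  have g0 : ∀ s, 0 ≤ FG s := ind0 _
  have gg1 : ∀ s, FG s ≤ 1 := ind1 _
  have hle : ∀ s, FG s ≤ FL s := by
    intro s
    simp only [hFL, hFG, ind]
    exact Set.indicator_le_indicator_of_subset SC_sub (fun _ => zero_le_one) s
  have iL := ii_bdd mL l0 l1
  have iG := ii_bdd mG g0 gg1
  have aL := Av_mean mL l0 l1 hH0 hT
  have aG := Av_mean mG g0 gg1 hH0 hT
  -- the second moment
  have hgc : Continuous fun x : ℝ => 2 * T * (d T ^ (2 * V ^ 2 + 2) + CN * ν * d T ^ γ * (max x (d T)) ^ (-γ)) := by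
    refine continuous_const.mul (continuous_const.add (continuous_const.mul ?_))
    exact (continuous_id.max continuous_const).rpow_const fun x => Or.inl (lt_max_of_lt_right h3).ne'
  have hmc : Continuous fun x : ℝ => (max x (d T)) ^ (-γ) :=
    (continuous_id.max continuous_const).rpow_const fun x => Or.inl (lt_max_of_lt_right h3).ne'
  have hgB : ∫ x in (0:ℝ)..1, 2 * T * (d T ^ (2 * V ^ 2 + 2) + CN * ν * d T ^ γ * (max x (d T)) ^ (-γ)) ≤
      2 * T * (d T ^ (2 * V ^ 2 + 2) + CN * ν * d T * (γ / (γ - 1))) := by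
    have hi1 : IntervalIntegrable (fun _ : ℝ => d T ^ (2 * V ^ 2 + 2)) volume 0 1 := intervalIntegrable_const
    have hi2 : IntervalIntegrable (fun x : ℝ => CN * ν * d T ^ γ * (max x (d T)) ^ (-γ)) volume 0 1 :=
      (continuous_const.mul hmc).intervalIntegrable _ _
    have hsp : ∫ x in (0:ℝ)..1, (d T ^ (2 * V ^ 2 + 2) + CN * ν * d T ^ γ * (max x (d T)) ^ (-γ)) =
        d T ^ (2 * V ^ 2 + 2) + CN * ν * d T ^ γ * ∫ x in (0:ℝ)..1, (max x (d T)) ^ (-γ) := by
      rw [intervalIntegral.integral_add hi1 hi2, intervalIntegral.integral_const,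
        intervalIntegral.integral_const_mul, smul_eq_mul, sub_zero, one_mul]
    rw [intervalIntegral.integral_const_mul, hsp]
    have h5 := int_max h3 hd1' hγ1
    have h6 : 0 ≤ CN * ν * d T ^ γ := by positivity
    have h7 := mul_le_mul_of_nonneg_left h5 h6
    have h8 : CN * ν * d T ^ γ * (d T ^ (1 - γ) * (γ / (γ - 1))) = CN * ν * d T * (γ / (γ - 1)) := by
      have : d T ^ γ * d T ^ (1 - γ) = d T := by
        rw [← Real.rpow_add h3]
        simp
      calc _ = CN * ν * (d T ^ γ * d T ^ (1 - γ)) * (γ / (γ - 1)) := by ring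
        _ = _ := by rw [this]
    rw [h8] at h7
    exact mul_le_mul_of_nonneg_left (by linarith) (by positivity)
  have main := sec_mom' hVAR (F := FG) mG g0 gg1 (T := T) (H := H T)
    (m := (1 + ε) * ν ^ 2) (ε := ε) (y0 := d T ^ (-(s / 2))) (κ := ka V (d T)) (ka_cont hC h3) hT hH1
    (by positivity) hε0.le hgc (fun x _ _ => by
      have : 0 < (max x (d T)) ^ (-γ) := Real.rpow_pos_of_pos (lt_max_of_lt_right h3) _
      positivity) hgB
    (by
      intro u x hu hx hx1 hux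
      refine (pair_int (X := 2 * T) hSm hu hT.le (by linarith)).trans ?_
      have h15 := g2 (c T) x hc0 hx hx1
      have h16 : volume {s : ℝ | 0 ≤ s ∧ s ≤ 2 * T ∧ s ∈ SS ∧ s + x ∈ SS} ≤ volume {t : ℝ | 0 ≤ t ∧ t ≤ 2 * T ∧
          c T < mz (d T) t ∧ c T < mz (d T) (t + x) ∧ Gc V εb N K (c T) (d T) t} := by
        refine measure_mono ?_
        rintro t ⟨a1, a2, a3, a4⟩
        exact ⟨a1, a2, a3.1, a4.1, a3.2⟩
      have h17 := ENNReal.toReal_mono ENNReal.ofReal_ne_top (h16.trans h15)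
      have h18 : 0 < (max x (d T)) ^ (-γ) := Real.rpow_pos_of_pos (lt_max_of_lt_right h3) _
      rw [ENNReal.toReal_ofReal (by positivity)] at h17
      exact h17)
    (by
      intro u x hu hx hux
      refine (pair_int2 (H := H T) hSm hu hT.le (by linarith)).trans (add_le_add_left ?_ _)
      have h15 := g4 (c T) hc0 hcA x (by rw [abs_of_pos (by linarith)]; exact hx.le) (by
        rw [abs_of_pos (by linarith)]
        linarith)
      have h16 : volume {s : ℝ | 0 ≤ s ∧ s ≤ T ∧ s ∈ SS ∧ s + x ∈ SS} ≤ volume {t : ℝ | 0 ≤ t ∧ t ≤ T ∧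
          c T < mz (d T) t ∧ c T < mz (d T) (t + x)} := by
        refine measure_mono ?_
        rintro t ⟨a1, a2, a3, a4⟩
        exact ⟨a1, a2, a3.1, a4.1⟩
      have h17 := ENNReal.toReal_mono ENNReal.ofReal_ne_top (h16.trans h15)
      rw [ENNReal.toReal_ofReal'] at h17
      refine h17.trans (max_le (le_of_eq (by ring)) ?_)
      have h18 := ka_nonneg hP V (d T) x
      positivity)
    (by
      intro y hy1 hy2
      have hyp : 0 < d T ^ (-(s / 2)) := Real.rpow_pos_of_pos h3 _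
      rcases le_total (d T ^ (-(s / 2))) y with h18 | h18
      · refine (hKA (d T) h3 h4 y h18).trans ?_
        exact mul_le_mul_of_nonneg_left (by linarith) (by linarith)
      · have h19 := hKA (d T) h3 h4 (d T ^ (-(s / 2))) le_rfl
        have hii : ∀ a b : ℝ, IntervalIntegrable (ka V (d T)) volume a b := fun a b =>
          (ka_cont hC h3).intervalIntegrable _ _
        have h20 := intervalIntegral.integral_add_adjacent_intervals (hii 1 y) (hii y (d T ^ (-(s / 2))))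
        have h21 : 0 ≤ ∫ x in y..(d T ^ (-(s / 2))), ka V (d T) x :=
          intervalIntegral.integral_nonneg h18 fun x _ => ka_nonneg hP V (d T) x
        have h22 : (1 + ε) * d T ^ (-(s / 2)) ≤ (1 + ε) * (y + d T ^ (-(s / 2))) :=
          mul_le_mul_of_nonneg_left (by linarith) (by linarith)
        linarith)
    (by positivity)
  -- the near part
  have nn1 : (2 / H T) * (2 * T * (d T ^ (2 * V ^ 2 + 2) + CN * ν * d T * (γ / (γ - 1)))) ≤ ε * ν ^ 2 * T := by
    have e1 : d T ^ (2 * V ^ 2 + 2) ≤ d T * ν ^ 2 := by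
      have e2 : (d T ^ (V ^ 2 + 1 / 2)) ^ 2 ≤ ν ^ 2 := pow_le_pow_left₀ (by positivity) n3 2
      have e3 : d T ^ (2 * V ^ 2 + 2) = d T * (d T ^ (V ^ 2 + 1 / 2)) ^ 2 := by
        rw [← Real.rpow_mul_natCast h3.le]
        conv_rhs => rw [← Real.rpow_one (d T), ← Real.rpow_mul h3.le, ← Real.rpow_add h3]
        congr 1
        push_cast
        ring
      rw [e3]
      exact mul_le_mul_of_nonneg_left e2 h3.le
    have e4 : (4 * T / H T) * d T ^ (2 * V ^ 2 + 2) ≤ (ε / 2) * ν ^ 2 * T := by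
      have e5 : 4 * T / H T ≤ 4 * T := div_le_self (by positivity) hH1
      calc (4 * T / H T) * d T ^ (2 * V ^ 2 + 2) ≤ 4 * T * (d T * ν ^ 2) :=
            mul_le_mul e5 e1 (by positivity) (by positivity)
        _ = (4 * d T) * (ν ^ 2 * T) := by ring
        _ ≤ (ε / 2) * (ν ^ 2 * T) := mul_le_mul_of_nonneg_right (by linarith) (by positivity)
        _ = _ := by ring
    have e6 : (4 * T / H T) * (CN * ν * d T * (γ / (γ - 1))) ≤ (ε / 2) * ν ^ 2 * T := by
      rw [div_le_iff₀ (by positivity)] at q2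
      have e7 : 8 * CN * γ * d T ≤ H T * ν * ((γ - 1) * ε) := by
        have e8 : H T * ν / d T * ((γ - 1) * ε) = H T * ν * ((γ - 1) * ε) / d T := by ring
        rw [e8, le_div_iff₀ h3] at q2
        exact q2
      have e9 : (4 * T / H T) * (CN * ν * d T * (γ / (γ - 1))) = (8 * CN * γ * d T) * (ν * T / (2 * H T * (γ - 1))) := by
        field_simp
        ring
      rw [e9]
      calc (8 * CN * γ * d T) * (ν * T / (2 * H T * (γ - 1))) ≤
            (H T * ν * ((γ - 1) * ε)) * (ν * T / (2 * H T * (γ - 1))) := mul_le_mul_of_nonneg_right e7 (by positivity)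
        _ = (ε / 2) * ν ^ 2 * T := by
            field_simp
    calc (2 / H T) * (2 * T * (d T ^ (2 * V ^ 2 + 2) + CN * ν * d T * (γ / (γ - 1))))
        = (4 * T / H T) * d T ^ (2 * V ^ 2 + 2) + (4 * T / H T) * (CN * ν * d T * (γ / (γ - 1))) := by ring
      _ ≤ _ := by linarith
  have f1 : d T ^ (-(s / 2)) / H T ≤ ε := by
    rw [div_le_iff₀ hH0]
    calc d T ^ (-(s / 2)) = d T ^ (s / 2) * d T ^ (-s) := by
          rw [← Real.rpow_add h3]
          congr 1
          ring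
      _ ≤ ε * H T := mul_le_mul p1.le hHs' (by positivity) hε0.le
  have f2 : T * ((1 + ε) * ν ^ 2 * ((1 + ε) * (1 + 2 * d T ^ (-(s / 2)) / H T) + ε)) ≤
      (1 + 13 * ε) * ν ^ 2 * T := by
    have b1 : 2 * d T ^ (-(s / 2)) / H T ≤ 2 * ε := by
      rw [mul_div_assoc]
      linarith
    have b2 : (1 + ε) * (1 + 2 * d T ^ (-(s / 2)) / H T) + ε ≤ (1 + ε) * (1 + 2 * ε) + ε := by
      have := mul_le_mul_of_nonneg_left b1 (show 0 ≤ 1 + ε by linarith)
      linarith
    have b3 : (1 + ε) * ((1 + ε) * (1 + 2 * d T ^ (-(s / 2)) / H T) + ε) ≤ 1 + 13 * ε := by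
      refine (mul_le_mul_of_nonneg_left b2 (show 0 ≤ 1 + ε by linarith)).trans ?_
      nlinarith [mul_pos hε0 hε0, mul_le_mul_of_nonneg_left (show ε ≤ 1 by linarith) (mul_pos hε0 hε0).le]
    calc T * ((1 + ε) * ν ^ 2 * ((1 + ε) * (1 + 2 * d T ^ (-(s / 2)) / H T) + ε))
        = ((1 + ε) * ((1 + ε) * (1 + 2 * d T ^ (-(s / 2)) / H T) + ε)) * (ν ^ 2 * T) := by ring
      _ ≤ (1 + 13 * ε) * (ν ^ 2 * T) := mul_le_mul_of_nonneg_right b3 (by positivity)
      _ = _ := by ring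
  have hsecond : ∫ t in (0:ℝ)..T, (Av FG (H T) t) ^ 2 ≤ (1 + 15 * ε) * ν ^ 2 * T := by
    have f3 : (1 + 15 * ε) * ν ^ 2 * T = (1 + 13 * ε) * ν ^ 2 * T + ε * ν ^ 2 * T + ε * ν ^ 2 * T := by ring
    rw [f3]
    linarith
  -- the first moment
  have h5 : (1 - ε) * ν * T ≤ ∫ s in (0:ℝ)..T, FL s := by
    have e1 := g3 (c T) hc0 hcA
    rw [ind_int (SL_meas h3 hd1) hT.le]
    have e2 : SL (c T) (d T) ∩ Set.Icc 0 T = {t : ℝ | 0 ≤ t ∧ t ≤ T ∧ c T < mz (d T) t} := by
      ext u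
      simp only [SL, Set.mem_ofPred_eq, Set.mem_inter_iff, Set.mem_Icc]
      tauto
    rw [e2]
    have hfin : volume {t : ℝ | 0 ≤ t ∧ t ≤ T ∧ c T < mz (d T) t} ≠ ⊤ :=
      ne_top_of_le_ne_top (by simp) (measure_mono (t := Set.Icc 0 T) fun s hs => ⟨hs.1, hs.2.1⟩)
    have e3 := ENNReal.toReal_mono hfin e1
    rw [ENNReal.toReal_ofReal (by
      have : 0 ≤ (1 - ε) * ν := mul_nonneg (by linarith) hnu.le
      positivity)] at e3
    linarith
  -- the bad points
  have hbT : (∫ s in (0:ℝ)..T, FL s) - (∫ s in (0:ℝ)..T, FG s) ≤ ε * ν * T := by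
    have e1 : (∫ s in (0:ℝ)..T, FL s) - (∫ s in (0:ℝ)..T, FG s) = ∫ s in (0:ℝ)..T, (FL s - FG s) :=
      (intervalIntegral.integral_sub (iL _ _) (iG _ _)).symm
    have e2 : ∀ s, FL s - FG s = ind (SL (c T) (d T) \ SS) s := by
      intro s
      simp only [hFL, hFG]
      unfold ind
      by_cases ha' : s ∈ SL (c T) (d T)
      · by_cases hb : s ∈ SS
        · rw [Set.indicator_of_mem ha', Set.indicator_of_mem hb,
            Set.indicator_of_notMem (fun h : s ∈ SL (c T) (d T) \ SS => h.2 hb)]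
          norm_num
        · rw [Set.indicator_of_mem ha', Set.indicator_of_notMem hb, Set.indicator_of_mem (Set.mem_diff_of_mem ha' hb)]
          norm_num
      · have hb : s ∉ SS := fun h => ha' (SC_sub h)
        rw [Set.indicator_of_notMem ha', Set.indicator_of_notMem hb,
          Set.indicator_of_notMem (fun h : s ∈ SL (c T) (d T) \ SS => ha' h.1)]
        norm_num
    rw [e1]
    simp_rw [e2]
    rw [ind_int ((SL_meas h3 hd1).diff hSm) hT.le]
    have e3 : volume ((SL (c T) (d T) \ SS) ∩ Set.Icc 0 T) ≤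
        ENNReal.ofReal (2 * T * (d T ^ (V ^ 2 + 1) + CB * K ^ (-εb) * ν)) := by
      refine (measure_mono ?_).trans (g1 (c T) K hc0 hK0)
      rintro u ⟨⟨u1, u2⟩, u3, u4⟩
      exact ⟨u3, by linarith, u1, fun hG => u2 ⟨u1, hG⟩⟩
    have e4 := ENNReal.toReal_mono ENNReal.ofReal_ne_top e3
    rw [ENNReal.toReal_ofReal (by positivity), hKε] at e4
    refine e4.trans ?_
    have e5 : d T ^ (V ^ 2 + 1) ≤ (ε / 4) * ν := by
      have e6 : d T ^ (V ^ 2 + 1) = d T ^ ((1:ℝ) / 2) * d T ^ (V ^ 2 + 1 / 2) := by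
        rw [← Real.rpow_add h3]
        congr 1
        ring
      rw [e6]
      exact mul_le_mul p2.le n3 (by positivity) (by positivity)
    calc 2 * T * (d T ^ (V ^ 2 + 1) + ε / 4 * ν) ≤ 2 * T * ((ε / 4) * ν + ε / 4 * ν) :=
          mul_le_mul_of_nonneg_left (by linarith) (by positivity)
      _ = ε * ν * T := by ring
  have hTH : ∫ s in (0:ℝ)..(T + H T), FL s ≤ (∫ s in (0:ℝ)..T, FL s) + H T := by
    have e2 := intervalIntegral.integral_add_adjacent_intervals (iL 0 T) (iL T (T + H T))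
    have e3 : ∫ s in T..(T + H T), FL s ≤ H T := by
      have := intervalIntegral.integral_mono_on (by linarith : T ≤ T + H T) (iL _ _) intervalIntegrable_const
        fun u _ => l1 u
      rw [intervalIntegral.integral_const, smul_eq_mul, mul_one, add_sub_cancel_left] at this
      exact this
    linarith
  have hHs2 : H T ≤ ε * ν * T := by
    refine hHs.trans ?_
    have : ν ^ 2 ≤ ν := by nlinarith
    calc ε * ν ^ 2 * T ≤ ε * ν * T :=
          mul_le_mul_of_nonneg_right (mul_le_mul_of_nonneg_left this hε0.le) hT.le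
      _ = _ := rfl
  have hcL := Av_cont mL l0 l1 (H T)
  have hcG := Av_cont mG g0 gg1 (H T)
  have hAA : ∀ t, Av FG (H T) t ≤ Av FL (H T) t := by
    intro t
    unfold Av
    refine mul_le_mul_of_nonneg_left ?_ (by positivity)
    exact intervalIntegral.integral_mono_on (by linarith) (iG _ _) (iL _ _) fun s _ => hle s
  have hpos : 0 ≤ ε * ν * T := by positivity
  have key := cheb hcL hcG hAA (T := T) (μ := ν) (ε := 15 * ε) (η := η) hT hnu (by positivity) hη
    (by
      have e1 : (1 - 15 * ε) * ν * T = (1 - ε) * ν * T - 14 * (ε * ν * T) := by ring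
      rw [e1]
      linarith [aG.1])
    hsecond
    (by
      rw [intervalIntegral.integral_sub (hcL.intervalIntegrable _ _) (hcG.intervalIntegrable _ _)]
      have e1 : 15 * ε * ν * T = 15 * (ε * ν * T) := by ring
      rw [e1]
      linarith [aG.1, aL.2])
  have e0 : {t : ℝ | η ≤ |lamc (c T) (d T) (H T) t / ν - 1|} = {t : ℝ | η ≤ |Av FL (H T) t / ν - 1|} := by
    ext t
    simp only [Set.mem_ofPred_eq]
    rw [lamc_eq h3 hd1 hH0]
  rw [e0]
  refine key.trans (ENNReal.ofReal_le_ofReal ?_)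
  exact mul_le_mul_of_nonneg_right hε2 hT.le

end Pool.Agent.V5helper51.EG
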