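import Pool.Agent.V5helper51.EG.Up

set_option autoImplicit false

/-!
# Project EG: the maximum and the frozen moments, from the parts
-/

namespace Pool.Agent.V5helper51.EG

open Filter MeasureTheory Topology
open Pool.Agent.N748.MG (mz pw Ev aC)
open Pool.Agent.N748.MJ (S_CONV S_POSV)
open Pool.Agent.V5helper51.HM (Ad Neg frac)
open Pool.Agent.V5helper51.PL

/-- the edge -/
noncomputable def ed (V d : ℝ) : ℝ := (2 * d) ^ (-V) * Real.log (1 / (2 * d)) ^ (-(1 / (4 * V)))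

/-- the constant -/
noncomputable def kp (V : ℝ) : ℝ := (aC V).re / (2 * V * Real.sqrt Real.pi)

/-- the order of the moments -/
noncomputable def Pk (V k d : ℝ) : ℝ := (2 * d) ^ (-(2 * k * V - V ^ 2)) * Real.log (1 / (2 * d)) ^ (-(k / (2 * V)))

lemma kp_pos {V : ℝ} (hV : 0 < V) (ha : 0 < (aC V).re) : 0 < kp V := by
  unfold kp
  have := Real.pi_pos
  positivity

lemma ell_pos {d : ℝ} (h0 : 0 < d) (h1 : d < 1 / 2) : 0 < Real.log (1 / (2 * d)) :=
  Real.log_pos (by rw [lt_div_iff₀ (by linarith)]; linarith)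

lemma ed_pos {V d : ℝ} (h0 : 0 < d) (h1 : d < 1 / 2) : 0 < ed V d := by
  unfold ed
  have := ell_pos h0 h1
  have : 0 < Real.log (1 / (2 * d)) ^ (-(1 / (4 * V))) := Real.rpow_pos_of_pos this _
  have : 0 < (2 * d) ^ (-V) := Real.rpow_pos_of_pos (by linarith) _
  positivity

lemma ed_rpow {V d : ℝ} (h0 : 0 < d) (h1 : d < 1 / 2) (s : ℝ) :
    ed V d ^ s = (2 * d) ^ (-(V * s)) * Real.log (1 / (2 * d)) ^ (-(s / (4 * V))) := by
  have h2 := ell_pos h0 h1
  unfold ed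
  rw [Real.mul_rpow (Real.rpow_nonneg (by linarith) _) (Real.rpow_nonneg h2.le _), ← Real.rpow_mul (by linarith),
    ← Real.rpow_mul h2.le]
  congr 2 <;> ring

lemma nu_ed {V d y : ℝ} (hV : 0 < V) (h0 : 0 < d) (h1 : d < 1 / 2) (hy : 0 < y) :
    nu V d (ed V d * y) = kp V * (2 * d) ^ (V ^ 2) * y ^ (-(2 * V)) := by
  have h2 := ell_pos h0 h1
  have h3 := ed_pos (V := V) h0 h1
  unfold nu kp
  rw [Real.mul_rpow h3.le hy.le, ed_rpow h0 h1, Real.sqrt_mul Real.pi_pos.le]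
  have e1 : -(-(2 * V) / (4 * V)) = (1:ℝ) / 2 := by field_simp; norm_num
  have e2 : -(V * -(2 * V)) = 2 * V ^ 2 := by ring
  rw [e1, e2, ← Real.sqrt_eq_rpow]
  have e3 : (2 * d) ^ (V ^ 2) = (2 * d) ^ (2 * V ^ 2) * (2 * d) ^ (-V ^ 2) := by
    rw [← Real.rpow_add (by linarith)]
    congr 1
    ring
  rw [e3]
  have h4 : 0 < Real.sqrt (Real.log (1 / (2 * d))) := Real.sqrt_pos.2 h2
  have h5 : 0 < Real.sqrt Real.pi := Real.sqrt_pos.2 Real.pi_pos
  field_simp

lemma ed_Pk {V k d : ℝ} (h0 : 0 < d) (h1 : d < 1 / 2) : ed V d ^ (2 * k) * (2 * d) ^ (V ^ 2) = Pk V k d := by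
  rw [ed_rpow h0 h1]
  unfold Pk
  have e1 : (2 * d) ^ (-(2 * k * V - V ^ 2)) = (2 * d) ^ (-(V * (2 * k))) * (2 * d) ^ (V ^ 2) := by
    rw [← Real.rpow_add (by linarith)]
    congr 1
    ring
  have e2 : -(2 * k / (4 * V)) = -(k / (2 * V)) := by
    congr 1
    rcases eq_or_ne V 0 with h | h
    · rw [h]; simp
    · field_simp
      ring
  rw [e1, e2]
  ring

lemma ell_large {d : ℝ → ℝ} (hd : Ad d) (b : ℝ) : ∀ᶠ T : ℝ in atTop, b ≤ Real.log (1 / (2 * d T)) := by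
  have h1 : Tendsto (fun T : ℝ => 1 / (2 * d T)) atTop atTop := by
    have h2 : Tendsto (fun T => 2 * d T) atTop (𝓝[>] 0) := by
      refine tendsto_nhdsWithin_iff.2 ⟨?_, hd.pos.mono fun T h => by
        show (0:ℝ) < 2 * d T
        linarith⟩
      have := hd.t0.const_mul 2
      rwa [mul_zero] at this
    have h3 : (fun T : ℝ => 1 / (2 * d T)) = (fun T => 2 * d T)⁻¹ := by
      funext T
      rw [Pi.inv_apply, one_div]
    rw [h3]
    exact h2.inv_tendsto_nhdsGT_zero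
  exact (Real.tendsto_log_atTop.comp h1).eventually_ge_atTop b

lemma ell_tendsto {d : ℝ → ℝ} (hd : Ad d) : Tendsto (fun T : ℝ => Real.log (1 / (2 * d T))) atTop atTop :=
  tendsto_atTop.2 fun b => ell_large hd b

lemma lev_ed {V B : ℝ} {d y : ℝ → ℝ} (hV : 0 < V) (hd : Ad d)
    (hy : ∀ᶠ T : ℝ in atTop, 0 < y T ∧ |Real.log (y T)| ≤ B * Real.log (Real.log (1 / (2 * d T)))) :
    Lev V (1 / (4 * V) + B) d (fun T => ed V (d T) * y T) := by
  filter_upwards [hy, hd.sm, ell_large hd 1] with T ⟨h1, h2⟩ ⟨h3, h4⟩ h5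
  have hd1 : d T < 1 / 2 := by linarith
  have h6 := ed_pos (V := V) h3 hd1
  have h7 := ell_pos h3 hd1
  refine ⟨mul_pos h6 h1, ?_⟩
  have e1 : Real.log (ed V (d T)) = V * Real.log (1 / (2 * d T)) - (1 / (4 * V)) * Real.log (Real.log (1 / (2 * d T))) := by
    unfold ed
    rw [Real.log_mul (Real.rpow_pos_of_pos (by linarith) _).ne' (Real.rpow_pos_of_pos h7 _).ne',
      Real.log_rpow (by linarith), Real.log_rpow h7]
    have : Real.log (2 * d T) = -Real.log (1 / (2 * d T)) := by rw [one_div, Real.log_inv, neg_neg]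
    rw [this]
    ring
  rw [Real.log_mul h6.ne' h1.ne', e1]
  have e2 : V * Real.log (1 / (2 * d T)) - 1 / (4 * V) * Real.log (Real.log (1 / (2 * d T))) + Real.log (y T) -
      V * Real.log (1 / (2 * d T)) = -(1 / (4 * V) * Real.log (Real.log (1 / (2 * d T)))) + Real.log (y T) := by ring
  rw [e2]
  refine (abs_add_le _ _).trans ?_
  have h8 : 0 ≤ Real.log (Real.log (1 / (2 * d T))) := Real.log_nonneg h5
  rw [abs_neg, abs_of_nonneg (by positivity), add_mul]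
  linarith

section

variable {V θ A0 : ℝ} {d H : ℝ → ℝ}

/-- the hypothesis on the windows -/
def Wi (θ A0 : ℝ) (d H : ℝ → ℝ) : Prop := ∀ᶠ T : ℝ in atTop, d T ^ (-θ) / A0 ≤ H T ∧ H T ≤ A0 * d T ^ (-θ)

lemma Wi.up (hA : 0 < A0) (hd : Ad d) (hH : Wi θ A0 d H) :
    ∀ᶠ T : ℝ in atTop, 0 < H T ∧ H T ≤ d T ^ (-(θ + 1)) := by
  filter_upwards [hH, hd.sm, hd.pw 1 (1 / A0) one_pos (by positivity)] with T ⟨h1, h2⟩ ⟨h3, h4⟩ h5
  have hp : 0 < d T ^ (-θ) := Real.rpow_pos_of_pos h3 _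
  refine ⟨lt_of_lt_of_le (by positivity) h1, h2.trans ?_⟩
  rw [Real.rpow_one, lt_div_iff₀ hA] at h5
  have e1 : d T ^ (-(θ + 1)) = d T ^ (-θ) * (1 / d T) := by
    rw [neg_add, Real.rpow_add h3, Real.rpow_neg_one, one_div]
  rw [e1, mul_comm A0]
  refine mul_le_mul_of_nonneg_left ?_ hp.le
  rw [le_div_iff₀ h3]
  linarith

/-- the frequency at the edge -/
theorem freq (hTB : S_TB) (hB : S_BADC) (hN : S_NEARC) (hL : S_LDS) (hF : S_FARC) (hK : S_KAV) (hVAR : S_VAR)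
    (hC : S_CONV) (hP : S_POSV) (hV : 1 < V) (ha : 0 < (aC V).re) (hd : Ad d) (hA : 0 < A0)
    (hH : Wi (V ^ 2 - 1) A0 d H) {B : ℝ} {y : ℝ → ℝ} (hy0 : ∀ᶠ T : ℝ in atTop, 0 < y T) (hy : Tendsto y atTop (𝓝 0))
    (hyB : ∀ᶠ T : ℝ in atTop, Real.log (1 / (2 * d T)) ^ (-B) ≤ y T) {η : ℝ} (hη : 0 < η) :
    Neg fun T => {t : ℝ | η ≤ |lamc (ed V (d T) * y T) (d T) (H T) t /
      (kp V * (2 * d T) ^ (V ^ 2) * y T ^ (-(2 * V))) - 1|} := by
  have hV0 : 0 < V := by linarith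
  have hB1 : 0 < max B 1 := lt_of_lt_of_le one_pos (le_max_right _ _)
  have hlev : Lev V (1 / (4 * V) + max B 1) d (fun T => ed V (d T) * y T) := by
    refine lev_ed hV0 hd ?_
    filter_upwards [hy0, hyB, hy.eventually (ge_mem_nhds one_pos), ell_large hd 1] with T h1 h2 h3 h4
    refine ⟨h1, ?_⟩
    have h5 : Real.log (y T) ≤ 0 := Real.log_nonpos h1.le h3
    rw [abs_of_nonpos h5]
    have h6 : 0 ≤ Real.log (Real.log (1 / (2 * d T))) := Real.log_nonneg h4
    have h7 := Real.log_le_log (Real.rpow_pos_of_pos (by linarith) _) h2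
    rw [Real.log_rpow (by linarith)] at h7
    have h8 := mul_le_mul_of_nonneg_right (le_max_left B 1) h6
    linarith
  have hy2 : Tendsto (fun T => y T ^ (-(2 * V))) atTop atTop := by
    have h1 : Tendsto y atTop (𝓝[>] 0) := tendsto_nhdsWithin_iff.2 ⟨hy, hy0⟩
    have h2 : Tendsto (fun T => (y T)⁻¹) atTop atTop := h1.inv_tendsto_nhdsGT_zero
    have h3 := (tendsto_rpow_atTop (show 0 < 2 * V by linarith)).comp h2
    refine h3.congr' ?_
    filter_upwards [hy0] with T h4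
    rw [Function.comp_apply, Real.inv_rpow h4.le, Real.rpow_neg h4.le]
  have hkp := kp_pos hV0 ha
  have hHn : Tendsto (fun T : ℝ => H T * nu V (d T) (ed V (d T) * y T) / d T) atTop atTop := by
    have h1 : 0 < kp V * 2 ^ (V ^ 2) / A0 := by positivity
    refine tendsto_atTop_mono' _ ?_ (hy2.const_mul_atTop h1)
    filter_upwards [hH, hd.sm, hy0] with T ⟨h2, _⟩ ⟨h3, h4⟩ h5
    have hd1 : d T < 1 / 2 := by linarith
    rw [nu_ed hV0 h3 hd1 h5, le_div_iff₀ h3, Real.mul_rpow (by norm_num) h3.le]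
    have hyp : 0 < y T ^ (-(2 * V)) := Real.rpow_pos_of_pos h5 _
    have hdp : 0 < d T ^ (V ^ 2) := Real.rpow_pos_of_pos h3 _
    have e1 : d T = d T ^ (-(V ^ 2 - 1)) * d T ^ (V ^ 2) := by
      rw [← Real.rpow_add h3]
      conv_lhs => rw [← Real.rpow_one (d T)]
      congr 1
      ring
    calc kp V * 2 ^ (V ^ 2) / A0 * y T ^ (-(2 * V)) * d T
        = kp V * 2 ^ (V ^ 2) / A0 * y T ^ (-(2 * V)) * (d T ^ (-(V ^ 2 - 1)) * d T ^ (V ^ 2)) := by rw [← e1]
      _ = (d T ^ (-(V ^ 2 - 1)) / A0) * (kp V * (2 ^ (V ^ 2) * d T ^ (V ^ 2)) * y T ^ (-(2 * V))) := by ring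
      _ ≤ H T * (kp V * (2 ^ (V ^ 2) * d T ^ (V ^ 2)) * y T ^ (-(2 * V))) :=
          mul_le_mul_of_nonneg_right h2 (by positivity)
  have key := edge hTB hB hN hL hF hK hVAR hC hP hV (by positivity) ha hd hlev
    ((hH.up hA hd).mono fun T h => h.2) hHn hη
  refine key.mono ?_
  filter_upwards [hd.sm, hy0] with T ⟨h3, h4⟩ h5
  intro t _ _ ht
  rw [← nu_ed hV0 h3 (by linarith) h5] at ht
  exact ht

/-- nothing beyond the edge -/
theorem beyond (hS : S_SUPC) (hV : 1 < V) (ha : 0 < (aC V).re) (hd : Ad d) (hA : 0 < A0)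
    (hH : Wi (V ^ 2 - 1) A0 d H) {g : ℝ → ℝ} (hg : Tendsto g atTop atTop)
    (hgB : ∀ᶠ T : ℝ in atTop, g T ≤ Real.log (1 / (2 * d T))) :
    Lev V (1 / (4 * V) + 1) d (fun T => ed V (d T) * g T) ∧
    Neg fun T => {t : ℝ | ∃ u : ℝ, t ≤ u ∧ u ≤ t + H T ∧ ed V (d T) * g T ≤ mz (d T) u} := by
  have hV0 : 0 < V := by linarith
  have hlev : Lev V (1 / (4 * V) + 1) d (fun T => ed V (d T) * g T) := by
    refine lev_ed hV0 hd ?_
    filter_upwards [hg.eventually_ge_atTop 1, hgB] with T h1 h2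
    refine ⟨by linarith, ?_⟩
    rw [abs_of_nonneg (Real.log_nonneg h1), one_mul]
    exact Real.log_le_log (by linarith) h2
  refine ⟨hlev, ?_⟩
  have hkp := kp_pos hV0 ha
  refine emptyC hS hV.le ha hd hlev ?_ ((hH.up hA hd).mono fun T h => ⟨h.1.le, h.2⟩) ?_
  · filter_upwards [hd.sm, hg.eventually_ge_atTop 1, ell_pow hd (1 / (4 * V)) (V / 2) (by positivity),
      hd.pw (V / 2) (2 ^ (-V)) (by positivity) (by positivity)] with T ⟨h3, h4⟩ h5 h6 h7
    have hd1 : d T < 1 / 2 := by linarith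
    have h8 := ell_pos h3 hd1
    have h9 : 1 ≤ ed V (d T) := by
      unfold ed
      rw [Real.rpow_neg h8.le]
      have h10 : 0 < Real.log (1 / (2 * d T)) ^ (1 / (4 * V)) := Real.rpow_pos_of_pos h8 _
      rw [← div_eq_mul_inv, le_div_iff₀ h10, one_mul]
      refine h6.trans ?_
      rw [Real.mul_rpow (by norm_num) h3.le]
      calc d T ^ (-(V / 2)) = d T ^ (V / 2) * d T ^ (-V) := by
            rw [← Real.rpow_add h3]
            congr 1
            ring
        _ ≤ 2 ^ (-V) * d T ^ (-V) := mul_le_mul_of_nonneg_right h7.le (Real.rpow_nonneg h3.le _)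
    show 1 ≤ ed V (d T) * g T
    nlinarith
  · have hy2 : Tendsto (fun T => g T ^ (-(2 * V))) atTop (𝓝 0) :=
      (tendsto_rpow_neg_atTop (show 0 < 2 * V by linarith)).comp hg
    have h1 := hy2.const_mul ((A0 + 1) * (kp V * 2 ^ (V ^ 2)))
    rw [mul_zero] at h1
    refine squeeze_zero' ?_ ?_ h1
    · filter_upwards [hd.sm, hg.eventually_ge_atTop 1, hH.up hA hd] with T ⟨h3, h4⟩ h5 ⟨h6, _⟩
      have h7 := nu_pos (c := ed V (d T) * g T) hV0 ha h3 (by linarith)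
        (mul_pos (ed_pos h3 (by linarith)) (by linarith))
      positivity
    · filter_upwards [hd.sm, hg.eventually_ge_atTop 1, hH] with T ⟨h3, h4⟩ h5 ⟨_, h6⟩
      have hd1 : d T < 1 / 2 := by linarith
      rw [nu_ed hV0 h3 hd1 (by linarith), Real.mul_rpow (by norm_num) h3.le]
      have hyp : 0 < g T ^ (-(2 * V)) := Real.rpow_pos_of_pos (by linarith) _
      have hdp : 0 < d T ^ (V ^ 2) := Real.rpow_pos_of_pos h3 _
      have e1 : d T ^ (-(V ^ 2 - 1)) / d T = d T ^ (-(V ^ 2)) := by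
        rw [div_eq_iff h3.ne']
        conv_rhs => rw [← Real.rpow_one (d T), ← Real.rpow_mul h3.le, ← Real.rpow_add h3]
        congr 1
        ring
      have e2 : H T / d T + 1 ≤ (A0 + 1) * d T ^ (-(V ^ 2)) := by
        have e3 : H T / d T ≤ A0 * d T ^ (-(V ^ 2)) := by
          rw [← e1, ← mul_div_assoc]
          exact div_le_div_of_nonneg_right h6 h3.le
        have e4 : 1 ≤ d T ^ (-(V ^ 2)) :=
          Real.one_le_rpow_of_pos_of_le_one_of_nonpos h3 (by linarith) (by nlinarith)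
        linarith
      have e5 : d T ^ (-(V ^ 2)) * d T ^ (V ^ 2) = 1 := by rw [← Real.rpow_add h3]; simp
      calc (H T / d T + 1) * (kp V * (2 ^ (V ^ 2) * d T ^ (V ^ 2)) * g T ^ (-(2 * V)))
          ≤ ((A0 + 1) * d T ^ (-(V ^ 2))) * (kp V * (2 ^ (V ^ 2) * d T ^ (V ^ 2)) * g T ^ (-(2 * V))) :=
            mul_le_mul_of_nonneg_right e2 (by positivity)
        _ = (A0 + 1) * (kp V * 2 ^ (V ^ 2)) * g T ^ (-(2 * V)) * (d T ^ (-(V ^ 2)) * d T ^ (V ^ 2)) := by ring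
        _ = _ := by rw [e5, mul_one]

/-- the maximum -/
theorem maxi (hTB : S_TB) (hB : S_BADC) (hN : S_NEARC) (hL : S_LDS) (hF : S_FARC) (hK : S_KAV) (hVAR : S_VAR)
    (hC : S_CONV) (hP : S_POSV) (hS : S_SUPC) (hV : 1 < V) (ha : 0 < (aC V).re) (hd : Ad d) (hA : 0 < A0)
    (hH : Wi (V ^ 2 - 1) A0 d H) {G : ℝ → ℝ} (hG : Tendsto G atTop atTop) :
    Neg fun T => {t : ℝ | ¬ ((∃ u : ℝ, t ≤ u ∧ u ≤ t + H T ∧ ed V (d T) / G T < mz (d T) u) ∧
      ∀ u : ℝ, t ≤ u → u ≤ t + H T → mz (d T) u < ed V (d T) * G T)} := by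
  have hV0 : 0 < V := by linarith
  have hkp := kp_pos hV0 ha
  set g : ℝ → ℝ := fun T => min (G T) (Real.log (1 / (2 * d T))) with hg
  have hgt : Tendsto g atTop atTop := tendsto_atTop.2 fun b => by
    filter_upwards [hG.eventually_ge_atTop b, ell_large hd b] with T h1 h2
    exact le_min h1 h2
  have hgG : ∀ T, g T ≤ G T := fun T => min_le_left _ _
  have hgl : ∀ T, g T ≤ Real.log (1 / (2 * d T)) := fun T => min_le_right _ _
  have h1 := (beyond hS hV ha hd hA hH hgt (Eventually.of_forall hgl)).2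
  have h2 := freq hTB hB hN hL hF hK hVAR hC hP hV ha hd hA hH (B := 1) (y := fun T => (g T)⁻¹)
    (by filter_upwards [hgt.eventually_gt_atTop 0] with T h; positivity) (tendsto_inv_atTop_zero.comp hgt)
    (by
      filter_upwards [hgt.eventually_gt_atTop 0, ell_large hd 1] with T h h'
      rw [Real.rpow_neg_one]
      exact inv_anti₀ h (hgl T)) (η := 1 / 2) (by norm_num)
  refine (h1.union h2).mono ?_
  filter_upwards [hgt.eventually_ge_atTop 1, hd.sm, hH.up hA hd] with T h3 ⟨h4, h5⟩ ⟨h6, _⟩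
  intro t _ _ ht
  by_contra hcon
  simp only [Set.mem_union, not_or, Set.mem_ofPred_eq] at hcon
  obtain ⟨c1, c2⟩ := hcon
  push Not at c1 c2
  have hd1 : d T < 1 / 2 := by linarith
  have hed := ed_pos (V := V) h4 hd1
  have hg0 : 0 < g T := by linarith
  have hG0 : 0 < G T := lt_of_lt_of_le hg0 (hgG T)
  refine ht ⟨?_, fun u u1 u2 => ?_⟩
  · -- existence
    by_contra hne
    push Not at hne
    have hz : lamc (ed V (d T) * (g T)⁻¹) (d T) (H T) t = 0 := by
      unfold lamc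
      have : {u : ℝ | t ≤ u ∧ u ≤ t + H T ∧ ed V (d T) * (g T)⁻¹ < mz (d T) u} = ∅ := by
        ext u
        simp only [Set.mem_ofPred_eq, Set.mem_empty_iff_false, iff_false, not_and, not_lt]
        intro u1 u2
        refine (hne u u1 u2).trans ?_
        rw [div_eq_mul_inv]
        exact mul_le_mul_of_nonneg_left (inv_anti₀ hg0 (hgG T)) hed.le
      rw [this]
      simp
    rw [hz] at c2
    norm_num at c2
  · exact (c1 u u1 u2).trans_le (mul_le_mul_of_nonneg_left (hgG T) hed.le)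

/-- the frozen moments -/
theorem frozen (hTB : S_TB) (hB : S_BADC) (hN : S_NEARC) (hL : S_LDS) (hF : S_FARC) (hK : S_KAV) (hVAR : S_VAR)
    (hC : S_CONV) (hP : S_POSV) (hS : S_SUPC) (hR : S_TRM) (hV : 1 < V) (ha : 0 < (aC V).re) (hd : Ad d) (hA : 0 < A0)
    (hH : Wi (V ^ 2 - 1) A0 d H) {k : ℝ} (hk : V < k) {G : ℝ → ℝ} (hG : Tendsto G atTop atTop) :
    Neg fun T => {t : ℝ | ¬ (Pk V k (d T) / G T ≤ Ak k (d T) (H T) t ∧
      Ak k (d T) (H T) t ≤ Pk V k (d T) * G T)} := by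
  have hV0 : 0 < V := by linarith
  have hk0 : 0 < k := by linarith
  have hkp := kp_pos hV0 ha
  set b : ℝ := 1 / (2 * (2 * k - 2 * V + 1)) with hb
  have hb1 : 0 < 2 * k - 2 * V + 1 := by linarith
  have hb0 : 0 < b := by positivity
  set g : ℝ → ℝ := fun T => min (G T ^ b) (Real.log (1 / (2 * d T))) with hg
  have hGb : Tendsto (fun T => G T ^ b) atTop atTop := (tendsto_rpow_atTop hb0).comp hG
  have hgt : Tendsto g atTop atTop := tendsto_atTop.2 fun b => by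
    filter_upwards [hGb.eventually_ge_atTop b, ell_large hd b] with T h1 h2
    exact le_min h1 h2
  have hgG : ∀ T, g T ≤ G T ^ b := fun T => min_le_left _ _
  have hgl : ∀ T, g T ≤ Real.log (1 / (2 * d T)) := fun T => min_le_right _ _
  obtain ⟨hlev, h1⟩ := beyond hS hV ha hd hA hH hgt (Eventually.of_forall hgl)
  have h2 := freq hTB hB hN hL hF hK hVAR hC hP hV ha hd hA hH (B := 1) (y := fun T => (g T)⁻¹)
    (by filter_upwards [hgt.eventually_gt_atTop 0] with T h; positivity) (tendsto_inv_atTop_zero.comp hgt)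
    (by
      filter_upwards [hgt.eventually_gt_atTop 0, ell_large hd 1] with T h h'
      rw [Real.rpow_neg_one]
      exact inv_anti₀ h (hgl T)) (η := 1 / 2) (by norm_num)
  have h3 := momU hR hV0 hk ha hd hlev (hH.up hA hd) hgt
  refine ((h1.union h2).union h3).mono ?_
  have hGs : Tendsto (fun T => G T ^ ((1:ℝ) / 2)) atTop atTop := (tendsto_rpow_atTop (by norm_num)).comp hG
  filter_upwards [hgt.eventually_ge_atTop 1, hd.sm, hH.up hA hd, hG.eventually_ge_atTop 1,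
    hGs.eventually_ge_atTop (2 / kp V), hGs.eventually_ge_atTop (kp V)] with T h4 ⟨h5, h6⟩ ⟨h7, _⟩ h8 h9 h10
  intro t _ _ ht
  by_contra hcon
  simp only [Set.mem_union, not_or, Set.mem_ofPred_eq] at hcon
  obtain ⟨⟨c1, c2⟩, c3⟩ := hcon
  have hd1 : d T < 1 / 2 := by linarith
  have hed := ed_pos (V := V) h5 hd1
  have hg0 : 0 < g T := by linarith
  have hG0 : 0 < G T := by linarith
  have hPk : 0 < Pk V k (d T) := by
    rw [← ed_Pk h5 hd1]
    have : 0 < (2 * d T) ^ (V ^ 2) := Real.rpow_pos_of_pos (by linarith) _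
    have : 0 < ed V (d T) ^ (2 * k) := Real.rpow_pos_of_pos hed _
    positivity
  have h2d : 0 < (2 * d T) ^ (V ^ 2) := Real.rpow_pos_of_pos (by linarith) _
  have hek : 0 < ed V (d T) ^ (2 * k) := Real.rpow_pos_of_pos hed _
  have hGG : G T ^ ((1:ℝ) / 2) * G T ^ ((1:ℝ) / 2) = G T := by
    rw [← Real.rpow_add hG0]
    norm_num
  have hGh : 0 < G T ^ ((1:ℝ) / 2) := Real.rpow_pos_of_pos hG0 _
  have hgp : g T ^ (2 * k - 2 * V + 1) ≤ G T ^ ((1:ℝ) / 2) := by
    calc g T ^ (2 * k - 2 * V + 1) ≤ (G T ^ b) ^ (2 * k - 2 * V + 1) := Real.rpow_le_rpow hg0.le (hgG T) hb1.le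
      _ = G T ^ ((1:ℝ) / 2) := by
          rw [← Real.rpow_mul hG0.le]
          congr 1
          have hne : 2 * k - 2 * V + 1 ≠ 0 := hb1.ne'
          rw [hb, div_mul_eq_mul_div, one_mul, div_eq_div_iff (by positivity) (by norm_num)]
          ring
  refine ht ⟨?_, ?_⟩
  · -- lower bound
    set y : ℝ := (g T)⁻¹ with hy
    have hy0 : 0 < y := by positivity
    have h11 := momL (k := k) (t := t) h5 hd1 h7 hk0 (mul_pos hed hy0)
    have hν : 0 < kp V * (2 * d T) ^ (V ^ 2) * y ^ (-(2 * V)) := by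
      have : 0 < y ^ (-(2 * V)) := Real.rpow_pos_of_pos hy0 _
      positivity
    rw [not_le, abs_lt] at c2
    have c4 : (kp V * (2 * d T) ^ (V ^ 2) * y ^ (-(2 * V))) / 2 ≤ lamc (ed V (d T) * y) (d T) (H T) t := by
      have c5 : 1 / 2 < lamc (ed V (d T) * y) (d T) (H T) t / (kp V * (2 * d T) ^ (V ^ 2) * y ^ (-(2 * V))) := by
        linarith [c2.1]
      rw [lt_div_iff₀ hν] at c5
      linarith
    refine le_trans ?_ h11
    have h12 : (ed V (d T) * y) ^ (2 * k) * ((kp V * (2 * d T) ^ (V ^ 2) * y ^ (-(2 * V))) / 2) =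
        Pk V k (d T) * (kp V / 2) * y ^ (2 * k - 2 * V) := by
      rw [Real.mul_rpow hed.le hy0.le, ← ed_Pk h5 hd1]
      have : y ^ (2 * k - 2 * V) = y ^ (2 * k) * y ^ (-(2 * V)) := by
        rw [← Real.rpow_add hy0]
        congr 1
      rw [this]
      ring
    have h13 : (G T ^ ((1:ℝ) / 2))⁻¹ ≤ y ^ (2 * k - 2 * V) := by
      rw [hy, Real.inv_rpow hg0.le]
      refine inv_anti₀ (Real.rpow_pos_of_pos hg0 _) (le_trans ?_ hgp)
      exact Real.rpow_le_rpow_of_exponent_le h4 (by linarith)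
    calc Pk V k (d T) / G T ≤ Pk V k (d T) * (kp V / 2) * (G T ^ ((1:ℝ) / 2))⁻¹ := by
          rw [div_le_iff₀ hG0]
          have h14 : (G T ^ ((1:ℝ) / 2))⁻¹ * G T = G T ^ ((1:ℝ) / 2) := by
            calc (G T ^ ((1:ℝ) / 2))⁻¹ * G T = (G T ^ ((1:ℝ) / 2))⁻¹ * (G T ^ ((1:ℝ) / 2) * G T ^ ((1:ℝ) / 2)) := by
                  rw [hGG]
              _ = _ := by rw [← mul_assoc, inv_mul_cancel₀ hGh.ne', one_mul]
          have h15 : 1 ≤ (kp V / 2) * G T ^ ((1:ℝ) / 2) := by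
            rw [div_le_iff₀ hkp] at h9
            linarith
          calc Pk V k (d T) = Pk V k (d T) * 1 := by ring
            _ ≤ Pk V k (d T) * ((kp V / 2) * G T ^ ((1:ℝ) / 2)) := mul_le_mul_of_nonneg_left h15 hPk.le
            _ = Pk V k (d T) * (kp V / 2) * ((G T ^ ((1:ℝ) / 2))⁻¹ * G T) := by rw [h14]; ring
            _ = _ := by ring
      _ ≤ Pk V k (d T) * (kp V / 2) * y ^ (2 * k - 2 * V) := mul_le_mul_of_nonneg_left h13 (by positivity)
      _ = (ed V (d T) * y) ^ (2 * k) * ((kp V * (2 * d T) ^ (V ^ 2) * y ^ (-(2 * V))) / 2) := h12.symm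
      _ ≤ _ := mul_le_mul_of_nonneg_left c4 (by positivity)
  · -- upper bound
    have c6 : ∀ u : ℝ, t ≤ u → u ≤ t + H T → mz (d T) u ≤ ed V (d T) * g T := by
      intro u u1 u2
      by_contra h
      exact c1 ⟨u, u1, u2, (not_le.1 h).le⟩
    have c7 : Ak k (d T) (H T) t < g T * ((ed V (d T) * g T) ^ (2 * k) * nu V (d T) (ed V (d T) * g T)) := by
      by_contra h
      exact c3 ⟨c6, not_lt.1 h⟩
    refine c7.le.trans ?_
    rw [nu_ed hV0 h5 hd1 hg0]
    have h12 : g T * ((ed V (d T) * g T) ^ (2 * k) * (kp V * (2 * d T) ^ (V ^ 2) * g T ^ (-(2 * V)))) =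
        Pk V k (d T) * kp V * g T ^ (2 * k - 2 * V + 1) := by
      rw [Real.mul_rpow hed.le hg0.le, ← ed_Pk h5 hd1]
      have : g T ^ (2 * k - 2 * V + 1) = g T ^ (2 * k) * g T ^ (-(2 * V)) * g T := by
        rw [← Real.rpow_add hg0, ← Real.rpow_add_one hg0.ne']
        congr 1
      rw [this]
      ring
    rw [h12]
    calc Pk V k (d T) * kp V * g T ^ (2 * k - 2 * V + 1) ≤ Pk V k (d T) * kp V * G T ^ ((1:ℝ) / 2) :=
          mul_le_mul_of_nonneg_left hgp (by positivity)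
      _ ≤ Pk V k (d T) * G T ^ ((1:ℝ) / 2) * G T ^ ((1:ℝ) / 2) := by
          have := mul_le_mul_of_nonneg_left h10 hPk.le
          exact mul_le_mul_of_nonneg_right this hGh.le
      _ = Pk V k (d T) * G T := by rw [mul_assoc, hGG]

end

end Pool.Agent.V5helper51.EG
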