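import Pool.Agent.V5helper51.EG.Asm

set_option autoImplicit false

/-!
# Project EG: the frequency of the large values up to the edge
-/

namespace Pool.Agent.V5helper51.EG

open Filter MeasureTheory Topology
open Pool.Agent.N748.MG (mz pw Ev aC)
open Pool.Agent.N748.MJ (S_CONV S_POSV)
open Pool.Agent.V5helper51.HM (Ad Neg frac)
open Pool.Agent.V5helper51.PL

lemma nu_pos {V δ c : ℝ} (hV : 0 < V) (ha : 0 < (aC V).re) (h0 : 0 < δ) (h1 : δ < 1 / 2) (hc : 0 < c) : 0 < nu V δ c := by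
  unfold nu
  have h2 : 0 < Real.log (1 / (2 * δ)) := Real.log_pos (by rw [lt_div_iff₀ (by linarith)]; linarith)
  have h3 := Real.pi_pos
  have h4 : (0:ℝ) < (2 * δ) ^ (-V ^ 2) := Real.rpow_pos_of_pos (by linarith) _
  have h5 : 0 < c ^ (-(2 * V)) := Real.rpow_pos_of_pos hc _
  positivity

/-- the good points -/
def Gc (V ε : ℝ) (N : ℕ) (K c δ s : ℝ) : Prop := ∀ j : ℕ, 1 ≤ j → δ * Real.exp j ≤ 3 →
  Gm δ N (δ * Real.exp j) s ≤ c * K * Real.exp (-(V - ε) * j)

/-- the good points with large values -/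
def SC (V ε : ℝ) (N : ℕ) (K c δ : ℝ) : Set ℝ := {s : ℝ | c < mz δ s ∧ Gc V ε N K c δ s}

lemma SC_meas {V ε K : ℝ} {N : ℕ} {c δ : ℝ} (h0 : 0 < δ) (h1 : δ < 1 / 2) : MeasurableSet (SC V ε N K c δ) := by
  have e : SC V ε N K c δ = SL c δ ∩ ⋂ j : ℕ, {s : ℝ | 1 ≤ j → δ * Real.exp j ≤ 3 →
      Gm δ N (δ * Real.exp j) s ≤ c * K * Real.exp (-(V - ε) * j)} := by
    ext s
    simp only [SC, SL, Gc, Set.mem_ofPred_eq, Set.mem_inter_iff, Set.mem_iInter]
  rw [e]
  refine (SL_meas h0 h1).inter (MeasurableSet.iInter fun j => ?_)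
  by_cases hj : 1 ≤ j
  · by_cases hj2 : δ * Real.exp j ≤ 3
    · simp only [hj, hj2, true_imp_iff]
      exact measurableSet_le (Gm_meas h0 h1 _ _) measurable_const
    · simp only [hj2, false_imp_iff, imp_true_iff]
      exact MeasurableSet.univ
  · simp only [hj, false_imp_iff]
    exact MeasurableSet.univ

lemma SC_sub {V ε K : ℝ} {N : ℕ} {c δ : ℝ} : SC V ε N K c δ ⊆ SL c δ := fun _ h => h.1

/-- the bad points -/
lemma badC (hB : S_BADC) {V D ε : ℝ} (hV : 0 < V) (ha : 0 < (aC V).re) (hD : 0 < D) (hε : 0 < ε) (hεV : ε ≤ V)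
    {N : ℕ} (hN : 1 ≤ N) :
    ∃ C : ℝ, 0 < C ∧ ∀ d : ℝ → ℝ, Ad d → ∀ᶠ T : ℝ in atTop, ∀ c K : ℝ, 0 < c → 0 < K →
      volume {t : ℝ | 0 ≤ t ∧ t ≤ 2 * T ∧ c < mz (d T) t ∧ ¬ Gc V ε N K c (d T) t} ≤
        ENNReal.ofReal (2 * T * (d T ^ D + C * K ^ (-ε) * nu V (d T) c)) := by
  obtain ⟨C, hC, h⟩ := hB V (D + 1) ε hV (by linarith) hε hεV N hN
  set r : ℝ := Real.exp (-(ε ^ 2 / 2)) with hr
  have hr0 : 0 < r := Real.exp_pos _
  have hr1 : r < 1 := by rw [hr, Real.exp_lt_one_iff]; linarith [sq_pos_of_pos hε]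
  have hgs : Summable fun n : ℕ => r ^ n := summable_geometric_of_lt_one hr0.le hr1
  have hgt : ∑' n : ℕ, r ^ n = (1 - r)⁻¹ := tsum_geometric_of_lt_one hr0.le hr1
  have hC' : 0 < C * (1 - r)⁻¹ := by
    have : 0 < 1 - r := by linarith
    positivity
  refine ⟨C * (1 - r)⁻¹, hC', fun d hd => ?_⟩
  filter_upwards [ev_ad2 h hd, hd.sm, eventually_gt_atTop 0] with T h1 ⟨h2, h3⟩ hT
  intro c K hc hK
  have hd1 : d T < 1 / 2 := by linarith
  have hnu := nu_pos hV ha h2 hd1 hc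
  set J : ℕ := ⌊Real.log (3 / d T)⌋₊ with hJ
  have hsub : {t : ℝ | 0 ≤ t ∧ t ≤ 2 * T ∧ c < mz (d T) t ∧ ¬ Gc V ε N K c (d T) t} ⊆
      ⋃ j ∈ (Finset.range (J + 1)).filter (fun j : ℕ => d T * Real.exp j ≤ 3), {t : ℝ | 0 ≤ t ∧ t ≤ 2 * T ∧ c < mz (d T) t ∧
        c * K * Real.exp (-(V - ε) * j) < Gm (d T) N (d T * Real.exp j) t} := by
    rintro t ⟨g1, g2, g3, g4⟩
    unfold Gc at g4
    push Not at g4
    obtain ⟨j, j1, j2, j3⟩ := g4
    rw [Set.mem_iUnion₂]
    refine ⟨j, ?_, g1, g2, g3, j3⟩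
    rw [Finset.mem_filter, Finset.mem_range, Nat.lt_succ_iff]
    refine ⟨Nat.le_floor ?_, j2⟩
    rw [Real.le_log_iff_exp_le (by positivity), le_div_iff₀ h2]
    linarith
  have hdD : 0 < d T ^ (D + 1) := Real.rpow_pos_of_pos h2 _
  have hKε : 0 < K ^ (-ε) := Real.rpow_pos_of_pos hK _
  refine (measure_mono hsub).trans ((measure_biUnion_finset_le _ _).trans ?_)
  have hterm : ∀ j ∈ (Finset.range (J + 1)).filter (fun j : ℕ => d T * Real.exp j ≤ 3),
      volume {t : ℝ | 0 ≤ t ∧ t ≤ 2 * T ∧ c < mz (d T) t ∧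
        c * K * Real.exp (-(V - ε) * j) < Gm (d T) N (d T * Real.exp j) t} ≤
      ENNReal.ofReal (2 * T * (d T ^ (D + 1) + C * K ^ (-ε) * nu V (d T) c * r ^ j)) := by
    intro j hj
    rw [Finset.mem_filter] at hj
    have h4 := h1 c K hc hK (j : ℝ) (Nat.cast_nonneg _) hj.2
    have e1 : Real.exp (-(ε ^ 2 / 2) * (j : ℝ)) = r ^ j := by
      rw [hr, ← Real.exp_nat_mul]
      congr 1
      ring
    rw [e1] at h4
    exact h4
  refine (Finset.sum_le_sum hterm).trans ?_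
  rw [← ENNReal.ofReal_sum_of_nonneg (fun j _ => by positivity)]
  refine ENNReal.ofReal_le_ofReal ?_
  have hs1 : ∑ j ∈ (Finset.range (J + 1)).filter (fun j : ℕ => d T * Real.exp j ≤ 3),
      2 * T * (d T ^ (D + 1) + C * K ^ (-ε) * nu V (d T) c * r ^ j) ≤
      ∑ j ∈ Finset.range (J + 1), 2 * T * (d T ^ (D + 1) + C * K ^ (-ε) * nu V (d T) c * r ^ j) :=
    Finset.sum_le_sum_of_subset_of_nonneg (Finset.filter_subset _ _) fun j _ _ => by positivity
  refine hs1.trans ?_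
  have hs2 : ∑ j ∈ Finset.range (J + 1), 2 * T * (d T ^ (D + 1) + C * K ^ (-ε) * nu V (d T) c * r ^ j) =
      2 * T * (((J:ℝ) + 1) * d T ^ (D + 1) + C * K ^ (-ε) * nu V (d T) c * ∑ j ∈ Finset.range (J + 1), r ^ j) := by
    rw [← Finset.mul_sum, Finset.sum_add_distrib, Finset.sum_const, Finset.card_range, nsmul_eq_mul, ← Finset.mul_sum]
    push_cast
    ring
  rw [hs2]
  have hs3 : ∑ j ∈ Finset.range (J + 1), r ^ j ≤ (1 - r)⁻¹ := by
    rw [← hgt]
    exact hgs.sum_le_tsum _ fun j _ => by positivity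
  have hs4 : ((J:ℝ) + 1) * d T ^ (D + 1) ≤ d T ^ D := by
    have e1 : (J:ℝ) ≤ Real.log (3 / d T) := Nat.floor_le (Real.log_nonneg (by rw [le_div_iff₀ h2]; linarith))
    have e2 : Real.log (3 / d T) ≤ Real.log 3 + Real.log (1 / d T) := by
      rw [← Real.log_mul (by norm_num) (by positivity)]
      refine le_of_eq ?_
      congr 1
      ring
    have e3 : Real.log 3 ≤ 2 := by
      have := Real.log_le_sub_one_of_pos (show (0:ℝ) < 3 by norm_num)
      linarith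
    have e4 : Real.log (1 / d T) ≤ 1 / (2 * d T) := by
      have e5 : Real.log (1 / (2 * d T)) ≤ 1 / (2 * d T) - 1 := Real.log_le_sub_one_of_pos (by positivity)
      have e6 : Real.log (1 / d T) = Real.log 2 + Real.log (1 / (2 * d T)) := by
        rw [← Real.log_mul (by norm_num) (by positivity)]
        congr 1
        field_simp
      have e7 : Real.log 2 ≤ 1 := by
        have := Real.log_le_sub_one_of_pos (show (0:ℝ) < 2 by norm_num)
        linarith
      linarith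
    have e5 : (J:ℝ) + 1 ≤ 1 / d T := by
      have e6 : (8:ℝ) ≤ 1 / (2 * d T) := by rw [le_div_iff₀ (by positivity)]; linarith
      have e7 : 1 / d T = 1 / (2 * d T) + 1 / (2 * d T) := by field_simp; ring
      linarith
    calc ((J:ℝ) + 1) * d T ^ (D + 1) ≤ (1 / d T) * d T ^ (D + 1) := mul_le_mul_of_nonneg_right e5 hdD.le
      _ = d T ^ D := by
          rw [Real.rpow_add h2, Real.rpow_one]
          field_simp
  refine mul_le_mul_of_nonneg_left ?_ (by positivity)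
  have h5 : C * K ^ (-ε) * nu V (d T) c * ∑ j ∈ Finset.range (J + 1), r ^ j ≤
      C * K ^ (-ε) * nu V (d T) c * (1 - r)⁻¹ := mul_le_mul_of_nonneg_left hs3 (by positivity)
  calc _ ≤ d T ^ D + C * K ^ (-ε) * nu V (d T) c * (1 - r)⁻¹ := add_le_add hs4 h5
    _ = _ := by ring

/-- pairs at distances up to `1` -/
lemma nearC (hTB : S_TB) (hN : S_NEARC) {V D ε : ℝ} (hV : 0 < V) (ha : 0 < (aC V).re) (hD : 0 < D) (hε : 0 < ε)
    {N : ℕ} (hN1 : 1 ≤ N) (hγ : 0 < V ^ 2 - V ^ 2 / N - 2 * V * ε) {K : ℝ} (hK : 0 < K) :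
    ∃ C : ℝ, 0 < C ∧ ∀ d : ℝ → ℝ, Ad d → ∀ᶠ T : ℝ in atTop, ∀ c x : ℝ, 0 < c → 0 ≤ x → x ≤ 1 →
      volume {t : ℝ | 0 ≤ t ∧ t ≤ 2 * T ∧ c < mz (d T) t ∧ c < mz (d T) (t + x) ∧ Gc V ε N K c (d T) t} ≤
        ENNReal.ofReal (2 * T * (d T ^ D + C * nu V (d T) c * d T ^ (V ^ 2 - V ^ 2 / N - 2 * V * ε) *
          (max x (d T)) ^ (-(V ^ 2 - V ^ 2 / N - 2 * V * ε)))) := by
  obtain ⟨C1, hC1, h1⟩ := hTB V D hV hD
  obtain ⟨C2, hC2, h2⟩ := hN V D ε hV hD hε N hN1
  set γ : ℝ := V ^ 2 - V ^ 2 / N - 2 * V * ε with hγd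
  refine ⟨max C1 (C2 * K ^ (2 * V)), lt_max_of_lt_left hC1, fun d hd => ?_⟩
  filter_upwards [ev_ad2 h1 hd, ev_ad2 h2 hd, hd.sm, eventually_gt_atTop 0] with T g1 g2 ⟨g3, g4⟩ hT
  intro c x hc hx0 hx1
  have hd1 : d T < 1 / 2 := by linarith
  have hnu := nu_pos hV ha g3 hd1 hc
  have hdD : 0 < d T ^ D := Real.rpow_pos_of_pos g3 _
  rcases le_or_gt x (d T) with hx | hx
  · refine (measure_mono ?_).trans ((g1 c hc).trans (ENNReal.ofReal_le_ofReal ?_))
    · rintro t ⟨a1, a2, a3, -⟩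
      exact ⟨a1, a2, a3⟩
    · rw [max_eq_right hx, mul_assoc _ (d T ^ γ), ← Real.rpow_add g3, add_neg_cancel, Real.rpow_zero, mul_one]
      refine mul_le_mul_of_nonneg_left ?_ (by positivity)
      have := mul_le_mul_of_nonneg_right (le_max_left C1 (C2 * K ^ (2 * V))) hnu.le
      linarith
  · set j : ℕ := ⌈Real.log (x / d T)⌉₊ with hj
    have hxd : 0 < Real.log (x / d T) := Real.log_pos (by rw [lt_div_iff₀ g3]; linarith)
    have hj1 : 1 ≤ j := Nat.ceil_pos.2 hxd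
    have hj2 : Real.log (x / d T) ≤ j := Nat.le_ceil _
    have hj3 : (j : ℝ) < Real.log (x / d T) + 1 := Nat.ceil_lt_add_one hxd.le
    have hx0' : 0 < x := g3.trans hx
    have hjx : x ≤ d T * Real.exp j := by
      rw [Real.log_le_iff_le_exp (by positivity), div_le_iff₀ g3] at hj2
      linarith
    have hjx2 : d T * Real.exp ((j:ℝ) - 1) ≤ x := by
      have h5 : (j : ℝ) - 1 ≤ Real.log (x / d T) := by linarith
      rw [Real.le_log_iff_exp_le (by positivity), le_div_iff₀ g3] at h5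
      linarith
    have hj3' : d T * Real.exp j ≤ 3 := by
      have e1 : Real.exp (j:ℝ) = Real.exp ((j:ℝ) - 1) * Real.exp 1 := by
        rw [← Real.exp_add]
        congr 1
        ring
      have e2 := Real.exp_one_lt_d9
      have e3 : 0 < Real.exp 1 := Real.exp_pos _
      calc d T * Real.exp j = (d T * Real.exp ((j:ℝ) - 1)) * Real.exp 1 := by rw [e1]; ring
        _ ≤ 1 * Real.exp 1 := mul_le_mul_of_nonneg_right (hjx2.trans hx1) e3.le
        _ ≤ 3 := by linarith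
    have h6 := g2 c K hc hK (j:ℝ) (Nat.cast_nonneg _) hj3' x (by rw [abs_of_pos hx0']; exact hjx2)
      (by rw [abs_of_pos hx0']; exact hjx)
    refine (measure_mono ?_).trans (h6.trans (ENNReal.ofReal_le_ofReal ?_))
    · rintro t ⟨a1, a2, a3, a4, a5⟩
      exact ⟨a1, a2, a3, a4, a5 j hj1 hj3'⟩
    · refine mul_le_mul_of_nonneg_left ?_ (by positivity)
      rw [max_eq_left hx.le]
      have e1 : Real.exp (-γ * (j:ℝ)) ≤ d T ^ γ * x ^ (-γ) := by
        have e2 : d T ^ γ * x ^ (-γ) = Real.exp (-γ * Real.log (x / d T)) := by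
          rw [Real.log_div hx0'.ne' g3.ne', Real.rpow_def_of_pos g3, Real.rpow_def_of_pos hx0', ← Real.exp_add]
          congr 1
          ring
        rw [e2]
        refine Real.exp_le_exp.2 ?_
        have := mul_le_mul_of_nonneg_left hj2 hγ.le
        linarith
      have hKp : 0 < K ^ (2 * V) := Real.rpow_pos_of_pos hK _
      have hp : 0 ≤ d T ^ γ * x ^ (-γ) := by positivity
      have e3 : C2 * K ^ (2 * V) * nu V (d T) c * Real.exp (-γ * (j:ℝ)) ≤
          max C1 (C2 * K ^ (2 * V)) * nu V (d T) c * (d T ^ γ * x ^ (-γ)) :=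
        mul_le_mul (mul_le_mul_of_nonneg_right (le_max_right _ _) hnu.le) e1 (Real.exp_pos _).le (by positivity)
      calc _ ≤ d T ^ D + max C1 (C2 * K ^ (2 * V)) * nu V (d T) c * (d T ^ γ * x ^ (-γ)) :=
            add_le_add le_rfl e3
        _ = _ := by ring

/-- powers of the logarithm are small -/
lemma ell_pow {d : ℝ → ℝ} (hd : Ad d) (s e : ℝ) (he : 0 < e) :
    ∀ᶠ T : ℝ in atTop, Real.log (1 / (2 * d T)) ^ s ≤ d T ^ (-e) := by
  have h1 : Tendsto (fun T : ℝ => 1 / (2 * d T)) atTop atTop := by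
    have h2 : Tendsto (fun T => 2 * d T) atTop (𝓝[>] 0) := by
      refine tendsto_nhdsWithin_iff.2 ⟨?_, hd.pos.mono fun T h => by
        show (0:ℝ) < 2 * d T
        linarith⟩
      have := hd.t0.const_mul 2
      rwa [mul_zero] at this
    have h3 : (fun T : ℝ => 1 / (2 * d T)) = (fun T => 2 * d T)⁻¹ := by
      funext T
      rw [Pi.inv_apply, one_div]
    rw [h3]
    exact h2.inv_tendsto_nhdsGT_zero
  have h4 := h1.eventually ((isLittleO_log_rpow_rpow_atTop s he).bound one_pos)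
  filter_upwards [h4, hd.sm] with T h5 ⟨h6, h7⟩
  have h8 : 0 < Real.log (1 / (2 * d T)) := Real.log_pos (by rw [lt_div_iff₀ (by linarith)]; linarith)
  rw [one_mul, Real.norm_of_nonneg (Real.rpow_nonneg h8.le _), Real.norm_of_nonneg (by positivity)] at h5
  refine h5.trans ?_
  rw [one_div, Real.inv_rpow (by linarith), ← Real.rpow_neg (by linarith)]
  exact Real.rpow_le_rpow_of_nonpos h6 (by linarith) (by linarith)

/-- the levels -/
def Lev (V A : ℝ) (d c : ℝ → ℝ) : Prop := ∀ᶠ T : ℝ in atTop, 0 < c T ∧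
  |Real.log (c T) - V * Real.log (1 / (2 * d T))| ≤ A * Real.log (Real.log (1 / (2 * d T)))

lemma nu_size {V A : ℝ} (hV : 0 < V) (ha : 0 < (aC V).re) {d c : ℝ → ℝ} (hd : Ad d) (hc : Lev V A d c) (e : ℝ)
    (he : 0 < e) : ∀ᶠ T : ℝ in atTop, d T ^ (V ^ 2 + e) ≤ nu V (d T) (c T) ∧ nu V (d T) (c T) ≤ d T ^ (V ^ 2 - e) := by
  have hk : 0 < (aC V).re / (2 * V * Real.sqrt Real.pi) := by
    have := Real.pi_pos
    positivity
  set κ : ℝ := (aC V).re / (2 * V * Real.sqrt Real.pi) with hκ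
  have h2V : (0:ℝ) < 2 ^ (V ^ 2) := by positivity
  filter_upwards [hc, hd.sm, ell_pow hd (2 * V * A + 1) (e / 2) (by positivity),
    ell_pow hd (2 * V * A) (e / 2) (by positivity),
    hd.pw (e / 2) κ (by positivity) hk, hd.pw (e / 2) (1 / (κ * 2 ^ (V ^ 2))) (by positivity) (by positivity),
    (hd.pw 1 (Real.exp (-2)) one_pos (Real.exp_pos _))] with
    T ⟨h1, h2⟩ ⟨h3, h4⟩ h5 h5' h6 h7 h8
  set L : ℝ := Real.log (1 / (2 * d T)) with hL
  rw [Real.rpow_one] at h8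
  have h2d : (0:ℝ) < 2 * d T := by linarith
  have hL1 : 1 ≤ L := by
    rw [hL, one_div, Real.log_inv]
    have : Real.log (2 * d T) ≤ Real.log (Real.exp (-1)) := by
      refine Real.log_le_log h2d ?_
      have e1 : Real.exp (-2) = Real.exp (-1) * Real.exp (-1) := by
        rw [← Real.exp_add]
        norm_num
      have e2 := Real.exp_neg_one_lt_d9
      have e3 : 0 < Real.exp (-1) := Real.exp_pos _
      nlinarith
    rw [Real.log_exp] at this
    linarith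
  have hL0 : 0 < L := by linarith
  have hld : Real.log (2 * d T) = -L := by rw [hL, one_div, Real.log_inv, neg_neg]
  -- the identity
  have e1 : nu V (d T) (c T) = κ * ((c T) ^ (-(2 * V)) * (2 * d T) ^ (-V ^ 2) * L ^ (-(1:ℝ) / 2)) := by
    unfold nu
    rw [Real.sqrt_mul Real.pi_pos.le, ← hL, hκ]
    have e2 : L ^ (-(1:ℝ) / 2) = (Real.sqrt L)⁻¹ := by
      rw [Real.sqrt_eq_rpow, ← Real.rpow_neg hL0.le]
      congr 1
      ring
    rw [e2]
    have : 0 < Real.sqrt L := Real.sqrt_pos.2 hL0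
    have h9 : 0 < Real.sqrt Real.pi := Real.sqrt_pos.2 Real.pi_pos
    field_simp
  have e2 : (c T) ^ (-(2 * V)) * (2 * d T) ^ (-V ^ 2) * L ^ (-(1:ℝ) / 2) =
      (2 * d T) ^ (V ^ 2) * Real.exp (-(2 * V) * (Real.log (c T) - V * L) + (-(1:ℝ) / 2) * Real.log L) := by
    rw [Real.rpow_def_of_pos h1, Real.rpow_def_of_pos h2d, Real.rpow_def_of_pos h2d, Real.rpow_def_of_pos hL0,
      ← Real.exp_add, ← Real.exp_add, ← Real.exp_add, hld]
    congr 1
    ring
  rw [abs_le] at h2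
  have hlL : 0 ≤ Real.log L := Real.log_nonneg hL1
  rw [e1, e2, Real.mul_rpow (by norm_num) h3.le]
  constructor
  · have e3 : L ^ (-(2 * V * A + 1)) ≤
        Real.exp (-(2 * V) * (Real.log (c T) - V * L) + (-(1:ℝ) / 2) * Real.log L) := by
      rw [Real.rpow_def_of_pos hL0]
      refine Real.exp_le_exp.2 ?_
      nlinarith [mul_le_mul_of_nonneg_left h2.2 (show (0:ℝ) ≤ 2 * V by linarith)]
    have e4 : d T ^ (e / 2) ≤ L ^ (-(2 * V * A + 1)) := by
      rw [Real.rpow_neg hL0.le, ← inv_inv (d T ^ (e / 2)), ← Real.rpow_neg h3.le]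
      exact inv_anti₀ (by positivity) h5
    have hp1 : 0 < d T ^ (V ^ 2) := Real.rpow_pos_of_pos h3 _
    have hp2 : 0 < d T ^ (e / 2) := Real.rpow_pos_of_pos h3 _
    have h22 : (1:ℝ) ≤ 2 ^ (V ^ 2) := Real.one_le_rpow (by norm_num) (by positivity)
    calc d T ^ (V ^ 2 + e) = d T ^ (e / 2) * (1 * d T ^ (V ^ 2) * d T ^ (e / 2)) := by
          rw [one_mul, ← Real.rpow_add h3, ← Real.rpow_add h3]
          congr 1
          ring
      _ ≤ κ * (2 ^ (V ^ 2) * d T ^ (V ^ 2) *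
          Real.exp (-(2 * V) * (Real.log (c T) - V * L) + (-(1:ℝ) / 2) * Real.log L)) := by
          refine mul_le_mul h6.le ?_ (by positivity) hk.le
          exact mul_le_mul (mul_le_mul_of_nonneg_right h22 hp1.le) (e4.trans e3) hp2.le (by positivity)
  · have e3 : Real.exp (-(2 * V) * (Real.log (c T) - V * L) + (-(1:ℝ) / 2) * Real.log L) ≤ L ^ (2 * V * A) := by
      rw [Real.rpow_def_of_pos hL0]
      refine Real.exp_le_exp.2 ?_
      nlinarith [mul_le_mul_of_nonneg_left h2.1 (show (0:ℝ) ≤ 2 * V by linarith)]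
    have hp1 : 0 < d T ^ (V ^ 2) := Real.rpow_pos_of_pos h3 _
    have hp2 : 0 < d T ^ (-(e / 2)) := Real.rpow_pos_of_pos h3 _
    rw [lt_div_iff₀ (by positivity)] at h7
    calc κ * (2 ^ (V ^ 2) * d T ^ (V ^ 2) *
          Real.exp (-(2 * V) * (Real.log (c T) - V * L) + (-(1:ℝ) / 2) * Real.log L))
        ≤ κ * (2 ^ (V ^ 2) * d T ^ (V ^ 2) * d T ^ (-(e / 2))) := by
          refine mul_le_mul_of_nonneg_left ?_ hk.le
          exact mul_le_mul_of_nonneg_left (e3.trans h5') (by positivity)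
      _ = (d T ^ (e / 2) * (κ * 2 ^ (V ^ 2))) * (d T ^ (-(e / 2)) * d T ^ (V ^ 2) * d T ^ (-(e / 2))) := by
          have : d T ^ (e / 2) * d T ^ (-(e / 2)) = 1 := by rw [← Real.rpow_add h3]; simp
          calc _ = κ * (2 ^ (V ^ 2) * d T ^ (V ^ 2) * d T ^ (-(e / 2))) * 1 := by ring
            _ = κ * (2 ^ (V ^ 2) * d T ^ (V ^ 2) * d T ^ (-(e / 2))) * (d T ^ (e / 2) * d T ^ (-(e / 2))) := by
                rw [this]
            _ = _ := by ring
      _ ≤ 1 * (d T ^ (-(e / 2)) * d T ^ (V ^ 2) * d T ^ (-(e / 2))) :=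
          mul_le_mul_of_nonneg_right h7.le (by positivity)
      _ = d T ^ (V ^ 2 - e) := by
          rw [one_mul, ← Real.rpow_add h3, ← Real.rpow_add h3]
          congr 1
          ring

end Pool.Agent.V5helper51.EG
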