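import Pool.Agent.V5helper51.EG.Edge

set_option autoImplicit false

/-!
# Project EG: no values beyond the edge, and the moments
-/

namespace Pool.Agent.V5helper51.EG

open Filter MeasureTheory Topology
open Pool.Agent.N748.MG (mz pw Ev aC)
open Pool.Agent.V5helper51.HM (Ad Neg frac)
open Pool.Agent.V5helper51.PL

/-- no values beyond the edge -/
theorem emptyC (hS : S_SUPC) {V A D : ℝ} (hV : 1 ≤ V) (ha : 0 < (aC V).re) {d H c : ℝ → ℝ} (hd : Ad d)
    (hc : Lev V A d c) (hc1 : ∀ᶠ T : ℝ in atTop, 1 ≤ c T) (hH : ∀ᶠ T : ℝ in atTop, 0 ≤ H T ∧ H T ≤ d T ^ (-D))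
    (hHn : Tendsto (fun T : ℝ => (H T / d T + 1) * nu V (d T) (c T)) atTop (𝓝 0)) :
    Neg fun T => {t : ℝ | ∃ u : ℝ, t ≤ u ∧ u ≤ t + H T ∧ c T ≤ mz (d T) u} := by
  have hV0 : 0 < V := by linarith
  have hD1 : 0 < max D 1 := lt_of_lt_of_le one_pos (le_max_right _ _)
  obtain ⟨C, hC, h⟩ := hS V (max D 1 + V ^ 2 + 3) hV (by positivity)
  intro κ hκ
  filter_upwards [ev_ad2 h hd, hc, hc1, hH, hd.sm, eventually_gt_atTop 0,
    hHn.eventually (ge_mem_nhds (show (0:ℝ) < κ / (4 * C) by positivity)),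
    hd.pw (1 / 2) (κ / 8) (by norm_num) (by positivity), pwT hd (max D 1) 1 hD1.le one_pos] with
    T h1 ⟨h2, _⟩ h3 ⟨h4, h5'⟩ ⟨h5, h6⟩ hT h7 h8 h9
  have hd1 : d T < 1 / 2 := by linarith
  have hd1' : d T < 1 := by linarith
  have hnu : 0 < nu V (d T) (c T) := nu_pos hV0 ha h5 hd1 h2
  have hHD : H T ≤ d T ^ (-(max D 1)) :=
    h5'.trans (Real.rpow_le_rpow_of_exponent_ge h5 hd1'.le (by linarith [le_max_left D 1]))
  have hHT : H T ≤ T := by linarith
  set n : ℕ := ⌊H T / d T⌋₊ with hn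
  have hn1 : (n : ℝ) ≤ H T / d T := Nat.floor_le (by positivity)
  have hn2 : H T / d T < n + 1 := Nat.lt_floor_add_one _
  set S : Set ℝ := {t : ℝ | 0 ≤ t ∧ t ≤ 2 * T ∧ ∃ u : ℝ, t ≤ u ∧ u ≤ t + d T ∧ c T ≤ mz (d T) u} with hSd
  have hSv := h1 (c T) h3
  have hsub : {t : ℝ | ∃ u : ℝ, t ≤ u ∧ u ≤ t + H T ∧ c T ≤ mz (d T) u} ∩ Set.Icc 0 T ⊆
      ⋃ i ∈ Finset.range (n + 1), (fun t => t + (i:ℝ) * d T) ⁻¹' S := by
    rintro t ⟨⟨u, u1, u2, u3⟩, t1, t2⟩
    have hx0 : 0 ≤ (u - t) / d T := div_nonneg (by linarith) h5.le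
    set i : ℕ := ⌊(u - t) / d T⌋₊ with hi
    have hi1 : (i : ℝ) ≤ (u - t) / d T := Nat.floor_le hx0
    have hi2 : (u - t) / d T < i + 1 := Nat.lt_floor_add_one _
    rw [le_div_iff₀ h5] at hi1
    rw [div_lt_iff₀ h5] at hi2
    rw [Set.mem_iUnion₂]
    refine ⟨i, ?_, ?_, ?_, u, ?_, ?_, u3⟩
    · rw [Finset.mem_range, Nat.lt_succ_iff]
      refine Nat.floor_le_floor ?_
      exact div_le_div_of_nonneg_right (by linarith) h5.le
    · show 0 ≤ t + (i:ℝ) * d T
      positivity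
    · show t + (i:ℝ) * d T ≤ 2 * T
      linarith
    · show t + (i:ℝ) * d T ≤ u
      linarith
    · show u ≤ t + (i:ℝ) * d T + d T
      linarith
  refine (measure_mono hsub).trans ((measure_biUnion_finset_le _ _).trans ?_)
  have hterm : ∀ i ∈ Finset.range (n + 1), volume ((fun t => t + (i:ℝ) * d T) ⁻¹' S) ≤
      ENNReal.ofReal (2 * T * (d T ^ (max D 1 + V ^ 2 + 3) + C * nu V (d T) (c T))) := by
    intro i _
    rw [measure_preimage_add_right]
    exact hSv
  refine (Finset.sum_le_sum hterm).trans ?_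
  rw [Finset.sum_const, Finset.card_range, nsmul_eq_mul, ← ENNReal.ofReal_natCast, ← ENNReal.ofReal_mul (by positivity)]
  refine ENNReal.ofReal_le_ofReal ?_
  push_cast
  have hp : 0 < d T ^ (max D 1 + V ^ 2 + 3) := Real.rpow_pos_of_pos h5 _
  have hHd : 0 ≤ H T / d T := by positivity
  have e1 : (H T / d T + 1) * d T ^ (max D 1 + V ^ 2 + 3) ≤ 2 * d T ^ ((1:ℝ) / 2) := by
    have e2 : H T / d T * d T ^ (max D 1 + V ^ 2 + 3) ≤ d T ^ ((1:ℝ) / 2) := by
      have e3 : H T / d T ≤ d T ^ (-(max D 1) - 1) := by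
        rw [div_le_iff₀ h5]
        have : d T ^ (-(max D 1) - 1) * d T = d T ^ (-(max D 1)) := by
          conv_lhs => rw [← Real.rpow_one (d T), ← Real.rpow_mul h5.le, ← Real.rpow_add h5]
          congr 1
          ring
        rw [this]
        exact hHD
      calc H T / d T * d T ^ (max D 1 + V ^ 2 + 3) ≤ d T ^ (-(max D 1) - 1) * d T ^ (max D 1 + V ^ 2 + 3) :=
            mul_le_mul_of_nonneg_right e3 hp.le
        _ = d T ^ (V ^ 2 + 2) := by
            rw [← Real.rpow_add h5]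
            congr 1
            ring
        _ ≤ d T ^ ((1:ℝ) / 2) := Real.rpow_le_rpow_of_exponent_ge h5 hd1'.le (by nlinarith [sq_nonneg V])
    have e4 : d T ^ (max D 1 + V ^ 2 + 3) ≤ d T ^ ((1:ℝ) / 2) :=
      Real.rpow_le_rpow_of_exponent_ge h5 hd1'.le (by nlinarith [sq_nonneg V])
    linarith
  have e5 : ((n:ℝ) + 1) * (2 * T * (d T ^ (max D 1 + V ^ 2 + 3) + C * nu V (d T) (c T))) ≤
      (H T / d T + 1) * (2 * T * (d T ^ (max D 1 + V ^ 2 + 3) + C * nu V (d T) (c T))) :=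
    mul_le_mul_of_nonneg_right (by linarith) (by positivity)
  refine e5.trans ?_
  have e6 : (H T / d T + 1) * (2 * T * (d T ^ (max D 1 + V ^ 2 + 3) + C * nu V (d T) (c T))) =
      2 * T * ((H T / d T + 1) * d T ^ (max D 1 + V ^ 2 + 3)) + 2 * T * (C * ((H T / d T + 1) * nu V (d T) (c T))) := by
    ring
  rw [e6]
  have e7 : C * ((H T / d T + 1) * nu V (d T) (c T)) ≤ κ / 4 := by
    calc C * ((H T / d T + 1) * nu V (d T) (c T)) ≤ C * (κ / (4 * C)) := mul_le_mul_of_nonneg_left h7 hC.le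
      _ = κ / 4 := by field_simp
  have e8 : (H T / d T + 1) * d T ^ (max D 1 + V ^ 2 + 3) ≤ κ / 4 := by linarith
  calc 2 * T * ((H T / d T + 1) * d T ^ (max D 1 + V ^ 2 + 3)) + 2 * T * (C * ((H T / d T + 1) * nu V (d T) (c T)))
      ≤ 2 * T * (κ / 4) + 2 * T * (κ / 4) :=
        add_le_add (mul_le_mul_of_nonneg_left e8 (by positivity)) (mul_le_mul_of_nonneg_left e7 (by positivity))
    _ = κ * T := by ring

/-- the average of `|ζ|^(2k)` over the window -/
noncomputable def Ak (k δ H t : ℝ) : ℝ := (1 / H) * ∫ u in t..(t + H), mz δ u ^ (2 * k)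

/-- upper bound for the moments of the windows without large values -/
theorem momU (hR : S_TRM) {V A D k : ℝ} (hV : 0 < V) (hk : V < k) (ha : 0 < (aC V).re) {d H c Y : ℝ → ℝ} (hd : Ad d)
    (hc : Lev V A d c) (hH : ∀ᶠ T : ℝ in atTop, 0 < H T ∧ H T ≤ d T ^ (-D)) (hY : Tendsto Y atTop atTop) :
    Neg fun T => {t : ℝ | (∀ u : ℝ, t ≤ u → u ≤ t + H T → mz (d T) u ≤ c T) ∧
      Y T * (c T ^ (2 * k) * nu V (d T) (c T)) ≤ Ak k (d T) (H T) t} := by
  have hD1 : 0 < max D 1 := lt_of_lt_of_le one_pos (le_max_right _ _)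
  obtain ⟨C, hC, h⟩ := hR V k (V ^ 2 + 1) hV hk (by positivity)
  intro κ hκ
  filter_upwards [ev_ad2 h hd, hc, hH, hd.sm, eventually_gt_atTop 0, nu_size hV ha hd hc 1 one_pos,
    hY.eventually_ge_atTop (4 * C / κ), pwT hd (max D 1) 1 hD1.le one_pos] with
    T h1 ⟨h2, _⟩ ⟨h3, h4⟩ ⟨h5, h6⟩ hT ⟨h7, _⟩ h8 h9
  have hd1 : d T < 1 / 2 := by linarith
  have hd1' : d T < 1 := by linarith
  have hnu : 0 < nu V (d T) (c T) := nu_pos hV ha h5 hd1 h2
  set ν : ℝ := nu V (d T) (c T) with hν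
  have hHD : H T ≤ d T ^ (-(max D 1)) :=
    h4.trans (Real.rpow_le_rpow_of_exponent_ge h5 hd1'.le (by linarith [le_max_left D 1]))
  have hHT : H T ≤ T := by linarith
  have hYp : 0 < Y T := lt_of_lt_of_le (by positivity) h8
  have hck : 0 < c T ^ (2 * k) := Real.rpow_pos_of_pos h2 _
  have hk0 : 0 < k := hV.trans hk
  -- the truncated function
  set F : ℝ → ℝ := fun s => Set.indicator {s : ℝ | mz (d T) s ≤ c T} (fun s => mz (d T) s ^ (2 * k) / c T ^ (2 * k)) s with hF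
  have hzc := mz_cont h5 hd1
  have hSm : MeasurableSet {s : ℝ | mz (d T) s ≤ c T} := measurableSet_le hzc.measurable measurable_const
  have hFm : Measurable F := ((hzc.measurable.pow_const _).div_const _).indicator hSm
  have hz0 : ∀ s, 0 ≤ mz (d T) s := fun s => norm_nonneg _
  have hF0 : ∀ s, 0 ≤ F s := fun s => Set.indicator_nonneg (fun s _ =>
    div_nonneg (Real.rpow_nonneg (hz0 s) _) hck.le) _
  have hF1 : ∀ s, F s ≤ 1 := by
    intro s
    simp only [hF]
    refine Set.indicator_le' (fun s hs => ?_) (fun _ _ => zero_le_one) s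
    rw [div_le_one hck]
    exact Real.rpow_le_rpow (hz0 s) hs (by linarith)
  have hmean := (Av_mean hFm hF0 hF1 h3 hT).2
  have hI : ∫ s in (0:ℝ)..(2 * T), F s ≤ 2 * T * (C * d T ^ (V ^ 2 + 1) + C * ν) := by
    rw [intervalIntegral.integral_of_le (by linarith), ← integral_Icc_eq_integral_Ioc]
    simp only [hF]
    rw [integral_indicator hSm, Measure.restrict_restrict hSm]
    have e1 : {s : ℝ | mz (d T) s ≤ c T} ∩ Set.Icc 0 (2 * T) = {t : ℝ | 0 ≤ t ∧ t ≤ 2 * T ∧ mz (d T) t ≤ c T} := by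
      ext u
      simp only [Set.mem_ofPred_eq, Set.mem_inter_iff, Set.mem_Icc]
      tauto
    rw [e1, integral_div, div_le_iff₀ hck]
    refine (h1 (c T) h2).trans (le_of_eq ?_)
    ring
  have hI2 : ∫ s in (0:ℝ)..(T + H T), F s ≤ 4 * C * ν * T := by
    have e1 := intervalIntegral.integral_add_adjacent_intervals (ii_bdd hFm hF0 hF1 0 (T + H T))
      (ii_bdd hFm hF0 hF1 (T + H T) (2 * T))
    have e2 : 0 ≤ ∫ s in (T + H T)..(2 * T), F s := intervalIntegral.integral_nonneg (by linarith) fun s _ => hF0 s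
    have e3 : 2 * T * (C * d T ^ (V ^ 2 + 1) + C * ν) ≤ 2 * T * (C * ν + C * ν) :=
      mul_le_mul_of_nonneg_left (by linarith [mul_le_mul_of_nonneg_left h7 hC.le]) (by positivity)
    linarith
  have hm := mrk (Av_cont hFm hF0 hF1 (H T)) (fun t => by
    unfold Av
    exact mul_nonneg (by positivity) (intervalIntegral.integral_nonneg (by linarith) fun s _ => hF0 s)) hT
    (κ := Y T * ν) (by positivity) (hmean.trans hI2)
  refine (measure_mono ?_).trans (hm.trans (ENNReal.ofReal_le_ofReal ?_))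
  · rintro t ⟨⟨t1, t2⟩, t3⟩
    refine ⟨?_, t3⟩
    show Y T * ν ≤ Av F (H T) t
    have e1 : Av F (H T) t = Ak k (d T) (H T) t / c T ^ (2 * k) := by
      unfold Av Ak
      rw [mul_div_assoc, ← intervalIntegral.integral_div]
      congr 1
      refine intervalIntegral.integral_congr fun u hu => ?_
      rw [Set.uIcc_of_le (by linarith)] at hu
      simp only [hF]
      exact Set.indicator_of_mem (show u ∈ {s : ℝ | mz (d T) s ≤ c T} from t1 u hu.1 hu.2) _
    rw [e1, le_div_iff₀ hck]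
    calc Y T * ν * c T ^ (2 * k) = Y T * (c T ^ (2 * k) * ν) := by ring
      _ ≤ _ := t2
  · rw [div_le_iff₀ (by positivity)]
    rw [div_le_iff₀ hκ] at h8
    calc 4 * C * ν * T ≤ (Y T * κ) * ν * T := by gcongr
      _ = κ * T * (Y T * ν) := by ring

/-- lower bound for the moments -/
lemma momL {k δ H t c : ℝ} (h0 : 0 < δ) (h1 : δ < 1 / 2) (hH : 0 < H) (hk : 0 < k) (hc : 0 < c) :
    c ^ (2 * k) * lamc c δ H t ≤ Ak k δ H t := by
  have hzc := mz_cont h0 h1
  have hm := SL_meas (c := c) h0 h1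
  rw [lamc_eq h0 h1 hH]
  unfold Av Ak
  have e1 : c ^ (2 * k) * (1 / H * ∫ s in t..(t + H), ind (SL c δ) s) =
      (1 / H) * ∫ s in t..(t + H), c ^ (2 * k) * ind (SL c δ) s := by
    rw [intervalIntegral.integral_const_mul]
    ring
  rw [e1]
  refine mul_le_mul_of_nonneg_left ?_ (by positivity)
  have hz0 : ∀ s, 0 ≤ mz δ s := fun s => norm_nonneg _
  refine intervalIntegral.integral_mono_on (by linarith)
    ((ii_bdd (ind_meas hm) (ind0 _) (ind1 _) _ _).const_mul _)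
    ((hzc.rpow_const fun x => Or.inr (by linarith)).intervalIntegrable _ _) fun s _ => ?_
  by_cases hs : s ∈ SL c δ
  · have e2 : ind (SL c δ) s = 1 := Set.indicator_of_mem hs _
    rw [e2, mul_one]
    have hs' : c < mz δ s := hs
    exact Real.rpow_le_rpow hc.le hs'.le (by linarith)
  · have e2 : ind (SL c δ) s = 0 := Set.indicator_of_notMem hs _
    rw [e2, mul_zero]
    exact Real.rpow_nonneg (hz0 s) _

end Pool.Agent.V5helper51.EG
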